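import Pool.Agent.P.MP_d49585_lc.Main

namespace Pool.Agent.P.MP_d49585_lc.U

open List

section code

variable {A B : Type} {c : A → List B} {L : ℕ}

theorem code_cut : ∀ (w : List A) (v ν : List B), v ++ ν = w.flatMap c →
    (w = [] ∧ v = [] ∧ ν = []) ∨ ∃ p x q s t, w = p ++ x :: q ∧ v = p.flatMap c ++ s ∧
      ν = t ++ q.flatMap c ∧ c x = s ++ t := by
  intro w
  induction w with
  | nil => intro v ν h; left; simpa using h
  | cons x w ih =>
    intro v ν h
    right
    rw [flatMap_cons] at h
    rcases append_eq_append_iff.1 h with ⟨a, e1, e2⟩ | ⟨a, e1, e2⟩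
    · exact ⟨[], x, w, v, a, rfl, by simp, e2, e1⟩
    · rcases ih a ν e2.symm with ⟨rfl, rfl, rfl⟩ | ⟨p, y, q, s, t, rfl, rfl, rfl, e⟩
      · exact ⟨[], x, [], v, [], rfl, by simp, by simp, by simpa using e1.symm⟩
      · exact ⟨x :: p, y, q, s, t, rfl, by simp [e1], rfl, e⟩

theorem code_pre (hL : ∀ x, (c x).length = L + 1) (hi : Function.Injective c) :
    ∀ (p w : List A) (r : List B), p.flatMap c ++ r = w.flatMap c →
      ∃ q, w = p ++ q ∧ r = q.flatMap c := by
  intro p
  induction p with
  | nil => exact fun w r h => ⟨w, rfl, h⟩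
  | cons x p ih =>
    intro w r h
    rcases w with _ | ⟨y, w⟩
    · have := congrArg length h
      simp [hL] at this
    · rw [flatMap_cons, flatMap_cons, append_assoc] at h
      obtain ⟨e1, e2⟩ := append_inj h (by rw [hL, hL])
      obtain rfl := hi e1
      obtain ⟨q, rfl, rfl⟩ := ih w r e2
      exact ⟨q, rfl, rfl⟩

theorem code_suf (hL : ∀ x, (c x).length = L + 1) (hi : Function.Injective c)
    (q w : List A) (r : List B) (h : r ++ q.flatMap c = w.flatMap c) :
    ∃ p, w = p ++ q ∧ r = p.flatMap c := by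
  have h1 := congrArg reverse h
  rw [reverse_append, reverse_flatMap, reverse_flatMap] at h1
  obtain ⟨p, e1, e2⟩ := code_pre (c := reverse ∘ c) (L := L) (fun x => by simp [hL])
    (reverse_injective.comp hi) _ _ _ h1
  refine ⟨p.reverse, by simpa using congrArg reverse e1, ?_⟩
  have := congrArg reverse e2
  rw [reverse_reverse, reverse_flatMap] at this
  rw [this]
  congr 1
  funext x
  simp

theorem code_mid (hL : ∀ x, (c x).length = L + 1) (hi : Function.Injective c) {p q w : List A}
    {s g t : List B} {x : A} (hx : c x = s ++ t)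
    (h : p.flatMap c ++ s ++ g ++ (t ++ q.flatMap c) = w.flatMap c) :
    ∃ r, w = p ++ r ++ q ∧ s ++ g ++ t = r.flatMap c ∧ r ≠ [] := by
  obtain ⟨r, rfl, e⟩ := code_pre hL hi p w (s ++ g ++ t ++ q.flatMap c) (by simpa using h)
  obtain ⟨r, rfl, e2⟩ := code_suf hL hi q r _ e
  refine ⟨r, by simp, e2, ?_⟩
  rintro rfl
  have h1 := congrArg length e2
  have h2 := hL x
  rw [hx] at h2
  simp only [length_append, flatMap_nil, length_nil] at h1 h2
  omega

theorem code_left (hL : ∀ x, (c x).length = L + 1) {s g t : List B} {x : A} (hx : c x = s ++ t)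
    (hd : ∀ y t', c y = s ++ t' → y = x) {r : List A} (h : s ++ g ++ t = r.flatMap c)
    (hr : r ≠ []) : ∃ r', r = x :: r' ∧ g ++ t = t ++ r'.flatMap c := by
  obtain ⟨y, r', rfl⟩ := exists_cons_of_ne_nil hr
  rw [flatMap_cons, append_assoc] at h
  have hl : s.length ≤ (c y).length := by
    rw [hL y, ← hL x, hx]
    simp
  obtain ⟨t', e⟩ := prefix_of_prefix_length_le (prefix_append s (g ++ t))
    (h ▸ prefix_append (c y) _) hl
  obtain rfl := hd y t' e.symm
  rw [hx, append_assoc] at h
  exact ⟨r', rfl, append_cancel_left h⟩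

theorem code_right (hL : ∀ x, (c x).length = L + 1) {s g t : List B} {x : A} (hx : c x = s ++ t)
    (hd : ∀ y s', c y = s' ++ t → y = x) {r : List A} (h : s ++ g ++ t = r.flatMap c)
    (hr : r ≠ []) : ∃ r', r = r' ++ [x] ∧ s ++ g = r'.flatMap c ++ s := by
  obtain ⟨r', y, rfl⟩ : ∃ r' y, r = r' ++ [y] := ⟨_, _, (dropLast_append_getLast hr).symm⟩
  rw [flatMap_append, flatMap_singleton] at h
  have hl : t.length ≤ (c y).length := by
    rw [hL y, ← hL x, hx]
    simp
  obtain ⟨s', e⟩ := suffix_of_suffix_length_le (suffix_append (s ++ g) t)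
    (h ▸ suffix_append _ (c y)) hl
  obtain rfl := hd y s' e.symm
  rw [hx, ← append_assoc] at h
  exact ⟨r', rfl, append_cancel_right h⟩

theorem hard_code (hL : ∀ x, (c x).length = L + 1) (hi : Function.Injective c)
    (hd : ∀ x s t, c x = s ++ t → (∀ y t', c y = s ++ t' → y = x) ∨ ∀ y s', c y = s' ++ t → y = x)
    {K : List A → Prop} (hK : Hard K) : Hard fun z => ∃ w : List A, z = w.flatMap c ∧ K w := by
  rintro v γ δ ν ⟨w1, h1, k1⟩ ⟨w2, h2, k2⟩ ⟨w3, h3, k3⟩
  rcases code_cut w1 v ν h1 with ⟨rfl, rfl, rfl⟩ | ⟨p, x, q, s, t, rfl, rfl, rfl, hx⟩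
  · simp only [nil_append, append_nil] at h2 h3 ⊢
    subst h2 h3
    exact ⟨w2 ++ w3, by simp, by simpa using hK [] w2 w3 [] k1 (by simpa) (by simpa)⟩
  obtain ⟨r2, rfl, e2, n2⟩ := code_mid hL hi hx h2
  obtain ⟨r3, rfl, e3, n3⟩ := code_mid hL hi hx h3
  rcases hd x s t hx with hd | hd
  · obtain ⟨a2, rfl, f2⟩ := code_left hL hx hd e2 n2
    obtain ⟨a3, rfl, f3⟩ := code_left hL hx hd e3 n3
    refine ⟨p ++ [x] ++ a2 ++ a3 ++ q, ?_,
      hK _ _ _ _ (by simpa using k1) (by simpa using k2) (by simpa using k3)⟩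
    simp only [flatMap_append, flatMap_singleton, hx, append_assoc]
    rw [← append_assoc δ, f3, append_assoc, ← append_assoc γ, f2, append_assoc]
  · obtain ⟨a2, rfl, f2⟩ := code_right hL hx hd e2 n2
    obtain ⟨a3, rfl, f3⟩ := code_right hL hx hd e3 n3
    refine ⟨p ++ a2 ++ a3 ++ x :: q, ?_,
      hK _ _ _ _ (by simpa using k1) (by simpa using k2) (by simpa using k3)⟩
    simp only [flatMap_append, flatMap_cons, hx, append_assoc]
    rw [← append_assoc s, f2, append_assoc, ← append_assoc s, f3, append_assoc]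

end code

/-- the unit vectors -/
def unit (k : ℕ) (i : Fin k) : List (Fin 2) := replicate i 0 ++ 1 :: replicate (k - i) 0

theorem unit_length {k : ℕ} (i : Fin k) : (unit k i).length = k + 1 := by
  have := i.2
  simp only [unit, length_append, length_replicate, length_cons]
  omega

theorem unit_idx {k : ℕ} (i : Fin k) : (unit k i).idxOf 1 = i := by
  simp [unit, idxOf_append, mem_replicate]

theorem unit_count {k : ℕ} (i : Fin k) : (unit k i).count 1 = 1 := by
  simp [unit, count_replicate]

theorem unit_inj {k : ℕ} : Function.Injective (unit k) := fun i j h =>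
  Fin.ext (by rw [← unit_idx i, h, unit_idx])

theorem unit_det {k : ℕ} (x : Fin k) (s t : List (Fin 2)) (h : unit k x = s ++ t) :
    (∀ y t', unit k y = s ++ t' → y = x) ∨ ∀ y s', unit k y = s' ++ t → y = x := by
  by_cases hs : (1 : Fin 2) ∈ s
  · left
    intro y t' e
    apply Fin.ext
    rw [← unit_idx y, ← unit_idx x, e, h, idxOf_append_of_mem hs, idxOf_append_of_mem hs]
  · right
    intro y s' e
    have c1 := unit_count x
    have c2 := unit_count y
    have l1 := unit_length x
    have l2 := unit_length y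
    rw [h, count_append, count_eq_zero.2 hs] at c1
    rw [e, count_append] at c2
    rw [h, length_append] at l1
    rw [e, length_append] at l2
    have hs' : (1 : Fin 2) ∉ s' := count_eq_zero.1 (by omega)
    apply Fin.ext
    rw [← unit_idx y, ← unit_idx x, e, h, idxOf_append_of_notMem hs, idxOf_append_of_notMem hs']
    omega

theorem hard_unit {k : ℕ} {K : List (Fin k) → Prop} (hK : Hard K) :
    Hard fun z => ∃ w : List (Fin k), z = w.flatMap (unit k) ∧ K w :=
  hard_code unit_length unit_inj unit_det hK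

theorem unit_flat_inj {k : ℕ} {w w' : List (Fin k)}
    (h : w.flatMap (unit k) = w'.flatMap (unit k)) : w = w' := by
  obtain ⟨q, rfl, e⟩ := code_pre unit_length unit_inj w w' [] (by simpa using h)
  rcases q with _ | ⟨x, q⟩
  · simp
  · have := congrArg length e
    rw [flatMap_cons, length_append, unit_length, length_nil] at this
    omega

end Pool.Agent.P.MP_d49585_lc.U
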