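import Pool.Agent.P.MP_d49585_lc.Main

namespace Pool.Agent.P.MP_d49585_lc.U

open List

variable {J : Type}

/-- alternation of the parity bit -/
def Alt (l : List (J × Bool)) : Prop := l.IsChain fun a c => a.2 ≠ c.2

theorem Alt.tail {a : J × Bool} {l : List (J × Bool)} (h : Alt (a :: l)) : Alt l :=
  IsChain.tail h

theorem alt_cons2 {a c : J × Bool} {l : List (J × Bool)} :
    Alt (a :: c :: l) ↔ a.2 ≠ c.2 ∧ Alt (c :: l) := isChain_cons_cons

theorem run_inj {A : Type} {p : A → Prop} : ∀ {x x' : List A} {r r' : A} {l l' : List A},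
    (∀ a ∈ x, p a) → (∀ a ∈ x', p a) → ¬ p r → ¬ p r' → x ++ r :: l = x' ++ r' :: l' →
    x = x' ∧ r :: l = r' :: l'
  | [], [], _, _, _, _, _, _, _, _, h => ⟨rfl, h⟩
  | [], a :: _, _, _, _, _, _, h2, h3, _, h => by
    obtain ⟨rfl, -⟩ := cons.inj h
    exact absurd (h2 _ mem_cons_self) h3
  | a :: _, [], _, _, _, _, h1, _, _, h4, h => by
    obtain ⟨rfl, -⟩ := cons.inj h
    exact absurd (h1 _ mem_cons_self) h4
  | a :: x, a' :: x', _, _, _, _, h1, h2, h3, h4, h => by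
    obtain ⟨rfl, h5⟩ := cons.inj h
    obtain ⟨rfl, h6⟩ := run_inj (fun c hc => h1 c (mem_cons_of_mem _ hc))
      (fun c hc => h2 c (mem_cons_of_mem _ hc)) h3 h4 h5
    exact ⟨rfl, h6⟩

theorem hard_all {A : Type} (p : A → Prop) : Hard fun x : List A => ∀ a ∈ x, p a := by
  intro v γ δ ν _ h2 h3 a ha
  simp only [mem_append] at ha h2 h3
  rcases ha with ((ha | ha) | ha) | ha
  exacts [h2 a (.inl (.inl ha)), h2 a (.inl (.inr ha)), h3 a (.inl (.inr ha)), h2 a (.inr ha)]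

theorem hard_run {A : Type} (p : A → Prop) (r : A) (l : List A) (hr : ¬ p r) :
    Hard fun w => ∃ x, w = x ++ r :: l ∧ ∀ a ∈ x, p a := by
  rintro v γ δ ν ⟨x, h1, p1⟩ ⟨y, h2, p2⟩ ⟨z, h3, p3⟩
  have left : ∀ a', x = v ++ a' → ν = a' ++ r :: l →
      ∃ x, v ++ γ ++ δ ++ ν = x ++ r :: l ∧ ∀ a ∈ x, p a := by
    rintro a' rfl rfl
    rw [← append_assoc] at h2 h3
    obtain rfl := append_cancel_right h2
    obtain rfl := append_cancel_right h3
    exact ⟨v ++ γ ++ δ ++ a', by simp, hard_all p v γ δ a' p1 p2 p3⟩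
  rcases append_eq_append_iff.1 h1 with ⟨a', e1, e2⟩ | ⟨c', e1, e2⟩
  · exact left a' e1 e2
  · rcases c' with _ | ⟨r', c'⟩
    · exact left [] (by simpa using e1.symm) (by simpa using e2.symm)
    · obtain ⟨rfl, rfl⟩ := cons.inj e2
      subst e1
      have h4 : x ++ r :: (c' ++ γ ++ ν) = y ++ r :: (c' ++ ν) := by simpa using h2
      have h5 := congrArg length (run_inj p1 p2 hr hr h4).2
      have h6 : γ = [] := by
        rw [← length_eq_zero_iff]
        simp only [length_cons, length_append] at h5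
        omega
      subst h6
      exact ⟨z, by simpa using h3, p3⟩

theorem all_eq {A : Type} {x : List A} {i : A} (h : ∀ a ∈ x, a = i) : x = replicate x.length i :=
  eq_replicate_iff.2 ⟨rfl, h⟩

theorem hard_rep {A : Type} (i r : A) (l : List A) (hr : r ≠ i) :
    Hard fun w => ∃ k, w = replicate k i ++ r :: l := by
  have : (fun w => ∃ k, w = replicate k i ++ r :: l) =
      fun w => ∃ x, w = x ++ r :: l ∧ ∀ a ∈ x, a = i := by
    funext w
    apply propext
    constructor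
    · rintro ⟨k, rfl⟩
      exact ⟨_, rfl, fun a ha => eq_of_mem_replicate ha⟩
    · rintro ⟨x, rfl, hx⟩
      exact ⟨x.length, by rw [← all_eq hx]⟩
  rw [this]
  exact hard_run _ r l hr

def G (α ρ : List (J × Bool)) : Prop :=
  (∃ r l x, ρ = r :: l ∧ Alt (r :: l) ∧ α = x ++ r :: l ∧ ∀ a ∈ x, a.2 ≠ r.2) ∨
  (∃ i j a k, α = i :: j :: a ∧ Alt (i :: j :: a) ∧ ρ = replicate k i ++ j :: a)

theorem G_row_alt {α l : List (J × Bool)} {r : J × Bool} (h : Alt (r :: l)) :
    G α (r :: l) ↔ ∃ x, α = x ++ r :: l ∧ ∀ a ∈ x, a.2 ≠ r.2 := by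
  constructor
  · rintro (⟨r', l', x, e, -, h2, h3⟩ | ⟨i, j, a, k, rfl, h2, h3⟩)
    · obtain ⟨rfl, rfl⟩ := cons.inj e
      exact ⟨x, h2, h3⟩
    · rcases k with _ | _ | k
      · obtain ⟨rfl, rfl⟩ := cons.inj h3
        exact ⟨[i], rfl, by simpa using (alt_cons2.1 h2).1⟩
      · obtain ⟨rfl, rfl⟩ := cons.inj h3
        exact ⟨[], rfl, by simp⟩
      · obtain ⟨rfl, rfl⟩ := cons.inj h3
        exact absurd rfl (alt_cons2.1 h).1
  · rintro ⟨x, h2, h3⟩
    exact Or.inl ⟨r, l, x, rfl, h, h2, h3⟩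

theorem G_col_alt {a ρ : List (J × Bool)} {i : J × Bool} (h : Alt (i :: a)) (hG : G (i :: a) ρ) :
    ∃ k, ρ = replicate k i ++ a := by
  rcases hG with ⟨r, l, x, rfl, -, h2, h3⟩ | ⟨i', j, a', k, e, -, h3⟩
  · rcases x with _ | ⟨x1, _ | ⟨x2, x⟩⟩
    · obtain ⟨rfl, rfl⟩ := cons.inj h2
      exact ⟨1, rfl⟩
    · obtain ⟨rfl, rfl⟩ := cons.inj h2
      exact ⟨0, rfl⟩
    · obtain ⟨rfl, rfl⟩ := cons.inj h2
      have e1 := (alt_cons2.1 h).1
      have e2 := h3 i (by simp)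
      have e3 := h3 x2 (by simp)
      exact absurd (Bool.eq_not_of_ne e2 |>.trans (Bool.eq_not_of_ne e3).symm) e1
  · obtain ⟨rfl, rfl⟩ := cons.inj e
    exact ⟨k, h3⟩

theorem G_row (ρ : List (J × Bool)) : Hard fun α => G α ρ := by
  by_cases h : ∃ r l, ρ = r :: l ∧ Alt (r :: l)
  · obtain ⟨r, l, rfl, h⟩ := h
    simp only [G_row_alt h]
    exact hard_run _ r l (by simp)
  · apply hard_of_length
    rintro x y (⟨r, l, _, e, h1, -⟩ | ⟨i, j, a, k, rfl, h1, h2⟩)
      (⟨r', l', _, e', h1', -⟩ | ⟨i', j', a', k', rfl, h1', h2'⟩)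
    · exact absurd ⟨_, _, e, h1⟩ h
    · exact absurd ⟨_, _, e, h1⟩ h
    · exact absurd ⟨_, _, e', h1'⟩ h
    · rcases k with _ | k
      · exact absurd ⟨_, _, h2, h1.tail⟩ h
      rcases k' with _ | k'
      · exact absurd ⟨_, _, h2', h1'.tail⟩ h
      have e := h2.symm.trans h2'
      obtain ⟨rfl, -⟩ := cons.inj e
      have n1 : j ≠ i := fun e => (alt_cons2.1 h1).1 (by rw [e])
      have n2 : j' ≠ i := fun e => (alt_cons2.1 h1').1 (by rw [e])
      have := (run_inj (p := fun a => a = i) (fun a ha => eq_of_mem_replicate ha)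
        (fun a ha => eq_of_mem_replicate ha) n1 n2 e).2
      simp [this]

theorem G_col (α : List (J × Bool)) : Hard fun ρ => G α ρ := by
  by_cases h : ∃ i j a, α = i :: j :: a ∧ Alt (i :: j :: a)
  · obtain ⟨i, j, a, rfl, h⟩ := h
    have : (fun ρ => G (i :: j :: a) ρ) = fun ρ => ∃ k, ρ = replicate k i ++ j :: a := by
      funext ρ
      exact propext ⟨G_col_alt h, fun ⟨k, hk⟩ => Or.inr ⟨i, j, a, k, rfl, h, hk⟩⟩
    rw [this]
    exact hard_rep i j a fun e => (alt_cons2.1 h).1 (by rw [e])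
  · apply hard_of_length
    have key : ∀ r l x, Alt (r :: l) → α = x ++ r :: l → (∀ a ∈ x, a.2 ≠ r.2) →
        α = [r] ∧ l = [] ∨ ∃ c x', x = c :: x' := by
      rintro r l (_ | ⟨c, x⟩) h1 rfl -
      · rcases l with _ | ⟨j, l⟩
        · exact Or.inl ⟨rfl, rfl⟩
        · exact absurd ⟨_, _, _, rfl, h1⟩ h
      · exact Or.inr ⟨_, _, rfl⟩
    rintro x y (⟨r, l, x, rfl, h1, h2, h3⟩ | ⟨i, j, a, k, e, h1, -⟩)
      (⟨r', l', x', rfl, h1', h2', h3'⟩ | ⟨i', j', a', k', e', h1', -⟩)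
    · rcases key _ _ _ h1 h2 h3 with ⟨e, rfl⟩ | ⟨c, z, rfl⟩
      · have := congrArg length (e.symm.trans h2')
        simp only [length_cons, length_append, length_nil] at this ⊢
        omega
      rcases key _ _ _ h1' h2' h3' with ⟨e, rfl⟩ | ⟨c', z', rfl⟩
      · have := congrArg length (e.symm.trans h2)
        simp only [length_cons, length_append, length_nil] at this ⊢
        omega
      have e := h2.symm.trans h2'
      obtain ⟨rfl, -⟩ := cons.inj e
      have e1 : r'.2 = r.2 := by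
        have a1 := h3 c (by simp)
        have a2 := h3' c (by simp)
        revert a1 a2
        cases c.2 <;> cases r.2 <;> cases r'.2 <;> simp
      have := (run_inj (p := fun a => a.2 ≠ r.2) h3 (by rw [← e1]; exact h3') (by simp)
        (by simp [e1]) e).2
      rw [this]
    · exact absurd ⟨_, _, _, e', h1'⟩ h
    · exact absurd ⟨_, _, _, e, h1⟩ h
    · exact absurd ⟨_, _, _, e, h1⟩ h

def N (α ρ : List (J × Bool)) : Prop :=
  (∃ r r', ρ = [r, r'] ∧ r.2 ≠ r'.2 ∧ ∀ a ∈ α, a.2 ≠ r.2) ∨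
  (∃ i j, α = [i, j] ∧ i.2 ≠ j.2 ∧ ∀ a ∈ ρ, a = i)

theorem no_mix {i j r : J × Bool} (h : i.2 ≠ j.2) (h1 : i.2 ≠ r.2) (h2 : j.2 ≠ r.2) : False :=
  h (Bool.eq_not_of_ne h1 |>.trans (Bool.eq_not_of_ne h2).symm)

theorem N_row (ρ : List (J × Bool)) : Hard fun α => N α ρ := by
  by_cases h : ∃ r r', ρ = [r, r'] ∧ r.2 ≠ r'.2
  · obtain ⟨r, r', rfl, h⟩ := h
    have : (fun α => N α [r, r']) = fun α => ∀ a ∈ α, a.2 ≠ r.2 := by
      funext α
      apply propext
      constructor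
      · rintro (⟨s, s', e, -, h2⟩ | ⟨i, j, -, -, h2⟩)
        · obtain ⟨rfl, -⟩ := cons.inj e
          exact h2
        · exact absurd (by rw [h2 r (by simp), h2 r' (by simp)]) h
      · exact fun h2 => Or.inl ⟨r, r', rfl, h, h2⟩
    rw [this]
    exact hard_all _
  · apply hard_of_length
    rintro x y (⟨r, r', e, h1, -⟩ | ⟨i, j, rfl, -⟩) (⟨s, s', e', h1', -⟩ | ⟨i', j', rfl, -⟩)
    · exact absurd ⟨_, _, e, h1⟩ h
    · exact absurd ⟨_, _, e, h1⟩ h
    · exact absurd ⟨_, _, e', h1'⟩ h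
    · rfl

theorem N_col (α : List (J × Bool)) : Hard fun ρ => N α ρ := by
  by_cases h : ∃ i j, α = [i, j] ∧ i.2 ≠ j.2
  · obtain ⟨i, j, rfl, h⟩ := h
    have : (fun ρ => N [i, j] ρ) = fun ρ => ∀ a ∈ ρ, a = i := by
      funext ρ
      apply propext
      constructor
      · rintro (⟨s, s', -, -, h2⟩ | ⟨i', j', e, -, h2⟩)
        · exact (no_mix h (h2 i (by simp)) (h2 j (by simp))).elim
        · obtain ⟨rfl, -⟩ := cons.inj e
          exact h2
      · exact fun h2 => Or.inr ⟨i, j, rfl, h, h2⟩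
    rw [this]
    exact hard_all _
  · apply hard_of_length
    rintro x y (⟨r, r', rfl, -⟩ | ⟨i, j, e, h1, -⟩) (⟨s, s', rfl, -⟩ | ⟨i', j', e', h1', -⟩)
    · rfl
    · exact absurd ⟨_, _, e', h1'⟩ h
    · exact absurd ⟨_, _, e, h1⟩ h
    · exact absurd ⟨_, _, e, h1⟩ h

theorem cmpL {v γ ρ : List (J × Bool)} (h1 : N v ρ) (h2 : N (v ++ γ) ρ) :
    γ = [] ∨ ∃ r r', ρ = [r, r'] ∧ r.2 ≠ r'.2 ∧ ∀ a ∈ v ++ γ, a.2 ≠ r.2 := by
  rcases h2 with h2 | ⟨i, j, h3, h4, h5⟩
  · exact Or.inr h2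
  · rcases h1 with ⟨r, r', rfl, h6, -⟩ | ⟨i', j', rfl, -⟩
    · exact absurd (by rw [h5 r (by simp), h5 r' (by simp)]) h6
    · left
      have := congrArg length h3
      simpa using this

theorem cmpR {α ρ δ : List (J × Bool)} (h1 : N α ρ) (h2 : N α (ρ ++ δ)) :
    δ = [] ∨ ∃ i j, α = [i, j] ∧ i.2 ≠ j.2 ∧ ∀ a ∈ ρ ++ δ, a = i := by
  rcases h2 with ⟨r, r', h3, h4, h5⟩ | h2
  · rcases h1 with ⟨s, s', rfl, -⟩ | ⟨i, j, rfl, h6, -⟩
    · left
      have := congrArg length h3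
      simpa using this
    · exact (no_mix h6 (h5 i (by simp)) (h5 j (by simp))).elim
  · exact Or.inr h2

def Pm (m : Bool) : List (J × Bool) → List (J × Bool) → Prop := cond m G N

theorem P_row (m : Bool) (ρ : List (J × Bool)) : Hard fun α => Pm m α ρ := by
  cases m
  exacts [N_row ρ, G_row ρ]

theorem P_col (m : Bool) (α : List (J × Bool)) : Hard fun ρ => Pm m α ρ := by
  cases m
  exacts [N_col α, G_col α]

theorem P_pre {m : Bool} {r r' : J × Bool} {v γ a ρ : List (J × Bool)} (hr : r.2 ≠ r'.2)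
    (hv : ∀ c ∈ v ++ γ, c.2 ≠ r.2) (h : Pm m (v ++ a) (r :: r' :: ρ)) :
    Pm m (v ++ γ ++ a) (r :: r' :: ρ) := by
  cases m
  · rcases h with ⟨s, s', e, h1, h2⟩ | ⟨i, j, -, -, h2⟩
    · obtain ⟨rfl, -⟩ := cons.inj e
      refine Or.inl ⟨_, s', e, h1, fun c hc => ?_⟩
      rcases mem_append.1 hc with hc | hc
      · exact hv c hc
      · exact h2 c (mem_append_right _ hc)
    · exact absurd (by rw [h2 r (by simp), h2 r' (by simp)]) hr
  · have hA : Alt (r :: r' :: ρ) := by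
      rcases h with ⟨s, l, x, e, h1, -⟩ | ⟨i, j, a', k, -, h1, e⟩
      · exact e ▸ h1
      · rcases k with _ | _ | k
        · exact e ▸ h1.tail
        · exact e ▸ h1
        · obtain ⟨rfl, e2⟩ := cons.inj e
          obtain ⟨rfl, -⟩ := cons.inj e2
          exact absurd rfl hr
    obtain ⟨x, h1, h2⟩ := (G_row_alt hA).1 h
    refine (G_row_alt hA).2 ?_
    have left : ∀ a', x = v ++ a' → a = a' ++ r :: r' :: ρ →
        ∃ x, v ++ γ ++ a = x ++ r :: r' :: ρ ∧ ∀ c ∈ x, c.2 ≠ r.2 := by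
      rintro a' rfl rfl
      refine ⟨v ++ γ ++ a', by simp, fun c hc => ?_⟩
      rcases mem_append.1 hc with hc | hc
      · exact hv c hc
      · exact h2 c (mem_append_right _ hc)
    rcases append_eq_append_iff.1 h1 with ⟨a', e1, e2⟩ | ⟨c', e1, e2⟩
    · exact left a' e1 e2
    · rcases c' with _ | ⟨r2, c'⟩
      · exact left [] (by simpa using e1.symm) (by simpa using e2.symm)
      · obtain ⟨rfl, -⟩ := cons.inj e2
        exact absurd rfl (hv r (by simp [e1]))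

theorem P_app1 {m : Bool} {i j : J × Bool} {α ρ : List (J × Bool)} (hi : i.2 ≠ j.2)
    (h : Pm m (i :: j :: α) ρ) : Pm m (i :: j :: α) (i :: ρ) := by
  cases m
  · rcases h with ⟨s, s', -, -, h2⟩ | ⟨i', j', e, h1, h2⟩
    · exact (no_mix hi (h2 i (by simp)) (h2 j (by simp))).elim
    · obtain ⟨rfl, -⟩ := cons.inj e
      exact Or.inr ⟨_, j', e, h1, by simpa using h2⟩
  · have hA : Alt (i :: j :: α) := by
      rcases h with ⟨s, l, x, -, h1, e, h2⟩ | ⟨i', j', a', k, e, h1, -⟩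
      · rcases x with _ | ⟨x1, _ | ⟨x2, x⟩⟩
        · exact e ▸ h1
        · obtain ⟨rfl, e2⟩ := cons.inj e
          exact alt_cons2.2 ⟨hi, e2 ▸ h1⟩
        · obtain ⟨rfl, e2⟩ := cons.inj e
          obtain ⟨rfl, -⟩ := cons.inj e2
          exact (no_mix hi (h2 i (by simp)) (h2 j (by simp))).elim
      · exact e ▸ h1
    obtain ⟨k, rfl⟩ := G_col_alt hA h
    exact Or.inr ⟨i, j, α, k + 1, rfl, hA, rfl⟩

theorem P_app {m : Bool} {i j : J × Bool} {α ρ : List (J × Bool)} (hi : i.2 ≠ j.2) (k : ℕ)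
    (h : Pm m (i :: j :: α) ρ) : Pm m (i :: j :: α) (replicate k i ++ ρ) := by
  induction k with
  | zero => exact h
  | succ k ih => exact P_app1 hi ih

/-- left letters, centre, right letters -/
abbrev Lt (X Y : Type) : Type := X ⊕ Option Y

def rg {X Y : Type} (y : Y) : Lt X Y := .inr (some y)

def ce {X Y : Type} (m : Bool) : List (Lt X Y) := cond m [.inr none] []

def enc {X Y : Type} (m : Bool) (α : List X) (β : List Y) : List (Lt X Y) :=
  α.map .inl ++ (ce m ++ β.map rg)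

theorem split {X Y : Type} {m : Bool} {α : List X} {β : List Y} {A B : List (Lt X Y)}
    (h : A ++ B = enc m α β) :
    (∃ a a', α = a ++ a' ∧ A = a.map .inl ∧ B = enc m a' β) ∨
    (∃ c c', β = c ++ c' ∧ A = enc m α c ∧ B = c'.map rg) := by
  rcases append_eq_append_iff.1 h with ⟨a', h1, h2⟩ | ⟨c', h1, h2⟩
  · obtain ⟨l1, l2, rfl, rfl, rfl⟩ := map_eq_append_iff.1 h1
    exact Or.inl ⟨l1, l2, rfl, rfl, h2⟩
  · cases m
    · obtain ⟨l1, l2, rfl, rfl, rfl⟩ := map_eq_append_iff.1 h2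
      exact Or.inr ⟨l1, l2, rfl, h1, rfl⟩
    · rcases c' with _ | ⟨x, c'⟩
      · exact Or.inl ⟨α, [], by simp, by simpa using h1, h2.symm⟩
      · obtain ⟨rfl, h3⟩ := cons.inj h2
        obtain ⟨l1, l2, rfl, rfl, rfl⟩ := map_eq_append_iff.1 h3
        exact Or.inr ⟨l1, l2, rfl, h1, rfl⟩

def S (w : List (Lt (J × Bool) (J × Bool))) : Prop := ∀ m α β, w = enc m α β → Pm m α β.reverse

theorem hard_S : Hard (S (J := J)) := by
  intro v γ δ ν hx hy hz m α β h
  rcases split h with ⟨a, a', rfl, h1, rfl⟩ | ⟨c, c', rfl, h1, rfl⟩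
  · obtain ⟨l, d, rfl, h2, rfl⟩ := map_eq_append_iff.1 h1.symm
    obtain ⟨l1, g, rfl, rfl, rfl⟩ := map_eq_append_iff.1 h2
    exact P_row m β.reverse l1 g d a' (hx m _ β (by simp [enc])) (hy m _ β (by simp [enc]))
      (hz m _ β (by simp [enc]))
  rcases split h1 with ⟨a, a', rfl, h2, rfl⟩ | ⟨d, d', rfl, h2, rfl⟩
  · obtain ⟨l1, g, rfl, rfl, rfl⟩ := map_eq_append_iff.1 h2.symm
    have k1 := hx false l1 c' (by simp [enc, ce])
    have k2 := hy false (l1 ++ g) c' (by simp [enc, ce])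
    have k3 := hz m (l1 ++ a') (c ++ c') (by simp [enc])
    rcases cmpL k1 k2 with rfl | ⟨r, r', e, hr, hv⟩
    · simpa using k3
    · rw [reverse_append, e] at k3 ⊢
      exact P_pre hr hv k3
  rcases split h2 with ⟨a, a', rfl, rfl, rfl⟩ | ⟨e, e', rfl, rfl, rfl⟩
  · have k1 := hx false a c' (by simp [enc, ce])
    have k2 := hz false a (d' ++ c') (by simp [enc, ce])
    have k3 := hy m (a ++ a') (d ++ c') (by simp [enc])
    rw [reverse_append] at k2 k3
    rw [reverse_append, reverse_append]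
    rcases cmpR k1 k2 with e | ⟨i, j, rfl, hi, hv⟩
    · rw [e]
      simpa using k3
    · have e1 := all_eq fun a ha => hv a (mem_append_left _ ha)
      have e2 := all_eq fun a ha => hv a (mem_append_right _ ha)
      rw [e1] at k3
      rw [e1, e2]
      have := P_app hi d'.reverse.length k3
      rwa [← append_assoc, ← replicate_add, add_comm, replicate_add, append_assoc] at this
  · exact hard_reverse (P_col m α) e e' d' c' (hx m α _ (by simp [enc])) (hy m α _ (by simp [enc]))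
      (hz m α _ (by simp [enc]))

theorem enc_inj {X Y : Type} {m m' : Bool} {α α' : List X} {β β' : List Y}
    (h : enc m α β = enc m' α' β') : m = m' ∧ α = α' ∧ β = β' := by
  have f1 : ∀ (m : Bool) (α : List X) (β : List Y), (enc m α β).filterMap Sum.getLeft? = α := by
    intro m α β
    cases m <;> simp [enc, ce, rg, filterMap_map]
  have f2 : ∀ (m : Bool) (α : List X) (β : List Y),
      (enc m α β).filterMap (fun x => x.getRight?.join) = β := by
    intro m α β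
    cases m <;> simp [enc, ce, rg, filterMap_map]
  have h1 : α = α' := by rw [← f1 m α β, h, f1]
  have h2 : β = β' := by rw [← f2 m α β, h, f2]
  subst h1 h2
  refine ⟨?_, rfl, rfl⟩
  have := congrArg length h
  cases m <;> cases m' <;> simp [enc, ce] at this ⊢

theorem S_enc {m : Bool} {α β : List (J × Bool)} (h : Pm m α β.reverse) : S (enc m α β) := by
  intro m' α' β' e
  obtain ⟨rfl, rfl, rfl⟩ := enc_inj e
  exact h

end Pool.Agent.P.MP_d49585_lc.U
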