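import Mathlib

namespace Pool.Agent.P.MP_d49585_lc

open List

def Hard {A : Type} (H : List A → Prop) : Prop :=
  ∀ v γ δ ν, H (v ++ ν) → H (v ++ γ ++ ν) → H (v ++ δ ++ ν) → H (v ++ γ ++ δ ++ ν)

theorem hard_of_length {A : Type} {H : List A → Prop}
    (h : ∀ x y, H x → H y → x.length = y.length) : Hard H := by
  intro v γ δ ν hx hy hz
  have := h _ _ hx hy
  have hγ : γ = [] := by
    rw [← length_eq_zero_iff]
    simp only [length_append] at this
    omega
  simpa [hγ] using hz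

theorem hard_reverse {A : Type} {H : List A → Prop} (h : Hard H) : Hard fun x => H x.reverse := by
  intro v γ δ ν hx hy hz
  have := h ν.reverse δ.reverse γ.reverse v.reverse (by simpa using hx) (by simpa using hz)
    (by simpa using hy)
  simpa using this

theorem hard_fam (s : Bool) (u : List Bool) : Hard fun x => ∃ k, x = replicate k s ++ u := by
  have key : ∀ (v γ ν : List Bool) (a c : ℕ), v ++ ν = replicate a s ++ u →
      v ++ γ ++ ν = replicate c s ++ u → γ = replicate γ.length s := by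
    intro v γ ν a c h1 h2
    have c1 := congrArg (count (!s)) h1
    have c2 := congrArg (count (!s)) h2
    have hz : ∀ k, count (!s) (replicate k s) = 0 := fun k => by cases s <;> simp [count_replicate]
    simp only [count_append, hz] at c1 c2
    have c3 : count (!s) γ = 0 := by omega
    rw [eq_replicate_iff]
    refine ⟨rfl, fun x hx => ?_⟩
    by_contra hne
    have : x = !s := by cases x <;> cases s <;> simp_all
    exact count_eq_zero.1 c3 (this ▸ hx)
  rintro v γ δ ν ⟨a, hx⟩ ⟨c, hy⟩ ⟨d, hz⟩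
  have hγ := key v γ ν a c hx hy
  have hl : c = γ.length + a := by
    have l1 := congrArg length hx
    have l2 := congrArg length hy
    simp only [length_append, length_replicate] at l1 l2
    omega
  have hc : v ++ γ = γ ++ v := by
    have : v ++ γ ++ ν = γ ++ v ++ ν := by
      rw [hy, append_assoc, hx, hl, replicate_add, ← hγ, append_assoc]
    exact append_cancel_right this
  refine ⟨γ.length + d, ?_⟩
  rw [hc, append_assoc, append_assoc, ← append_assoc v, hz, replicate_add, ← hγ, append_assoc]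

def t : ℕ → Bool
  | 0 => true
  | n + 1 => !t n

def b : ℕ → List Bool
  | 0 => []
  | n + 1 => t n :: b n

theorem b_length (n : ℕ) : (b n).length = n := by
  induction n with
  | zero => rfl
  | succ n ih => simp [b, ih]

theorem b_inj {n m : ℕ} (h : b n = b m) : n = m := by
  rw [← b_length n, h, b_length]

theorem lemA {k n m : ℕ} (h : replicate k (t n) ++ b n = b m) :
    (k = 0 ∧ m = n) ∨ (k = 1 ∧ m = n + 1) := by
  rcases k with _ | _ | k
  · exact Or.inl ⟨rfl, (b_inj h).symm⟩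
  · exact Or.inr ⟨rfl, (b_inj (n := n + 1) h).symm⟩
  · exfalso
    rcases m with _ | _ | m
    · simp [b, replicate_succ] at h
    · simp [b, replicate_succ] at h
    · simp only [b, replicate_succ, cons_append, cons.injEq, t] at h
      obtain ⟨h1, h2, -⟩ := h
      rw [h2] at h1
      simp at h1

theorem lemB {n m : ℕ} : ∀ {k k' : ℕ}, replicate k (t n) ++ b n = replicate k' (t m) ++ b m →
    n = m ∨ k' = 0 ∨ k = 0 := by
  intro k
  induction k with
  | zero => intro _ _; exact Or.inr (Or.inr rfl)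
  | succ k ih =>
    intro k' h
    rcases k' with _ | k'
    · exact Or.inr (Or.inl rfl)
    · simp only [replicate_succ, cons_append, cons.injEq] at h
      obtain ⟨h1, h2⟩ := h
      left
      rcases ih h2 with h3 | rfl | rfl
      · exact h3
      · rcases lemA h2 with ⟨-, h3⟩ | ⟨-, rfl⟩
        · exact h3.symm
        · simp [t] at h1
      · rcases lemA h2.symm with ⟨-, h3⟩ | ⟨-, rfl⟩
        · exact h3
        · simp [t] at h1

def Fam (n : ℕ) (x : List Bool) : Prop := ∃ k, x = replicate k (t n) ++ b n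

def G' (α ρ : List Bool) : Prop := ∃ n, (Fam n α ∧ ρ = b n) ∨ (α = b (n + 1) ∧ Fam n ρ)

theorem G'_row_b {n : ℕ} {α : List Bool} : G' α (b n) ↔ Fam n α := by
  constructor
  · rintro ⟨m, ⟨h1, h2⟩ | ⟨rfl, k, h2⟩⟩
    · rwa [b_inj h2]
    · rcases lemA h2.symm with ⟨-, rfl⟩ | ⟨-, rfl⟩
      · exact ⟨1, rfl⟩
      · exact ⟨0, rfl⟩
  · exact fun h => ⟨n, Or.inl ⟨h, rfl⟩⟩

theorem G'_col_b {n : ℕ} {ρ : List Bool} : G' (b (n + 1)) ρ ↔ Fam n ρ := by
  constructor
  · rintro ⟨m, ⟨⟨k, h1⟩, rfl⟩ | ⟨h1, h2⟩⟩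
    · rcases lemA h1.symm with ⟨-, rfl⟩ | ⟨-, h⟩
      · exact ⟨1, rfl⟩
      · obtain rfl : n = m := by omega
        exact ⟨0, rfl⟩
    · obtain rfl : n = m := by have := b_inj h1; omega
      exact h2
  · exact fun h => ⟨n, Or.inr ⟨rfl, h⟩⟩

theorem G'_row (ρ : List Bool) : Hard fun α => G' α ρ := by
  by_cases h : ∃ n, ρ = b n
  · obtain ⟨n, rfl⟩ := h
    simp only [G'_row_b]
    exact hard_fam _ _
  · apply hard_of_length
    rintro x y ⟨n, ⟨-, h1⟩ | ⟨rfl, k, h1⟩⟩ ⟨m, ⟨-, h2⟩ | ⟨rfl, k', h2⟩⟩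
    · exact absurd ⟨_, h1⟩ h
    · exact absurd ⟨_, h1⟩ h
    · exact absurd ⟨_, h2⟩ h
    · rcases lemB (h1.symm.trans h2) with rfl | rfl | rfl
      · rfl
      · exact absurd ⟨_, h2⟩ h
      · exact absurd ⟨_, h1⟩ h

theorem G'_col (α : List Bool) : Hard fun ρ => G' α ρ := by
  by_cases h : ∃ n, α = b (n + 1)
  · obtain ⟨n, rfl⟩ := h
    simp only [G'_col_b]
    exact hard_fam _ _
  · apply hard_of_length
    rintro x y ⟨n, ⟨⟨k, h1⟩, rfl⟩ | ⟨h1, -⟩⟩ ⟨m, ⟨⟨k', h2⟩, rfl⟩ | ⟨h2, -⟩⟩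
    · rcases lemB (h1.symm.trans h2) with rfl | rfl | rfl
      · rfl
      · rcases lemA (h1.symm.trans h2) with ⟨-, rfl⟩ | ⟨-, rfl⟩
        · rfl
        · exact absurd ⟨_, h2⟩ h
      · rcases lemA (h2.symm.trans h1) with ⟨-, rfl⟩ | ⟨-, rfl⟩
        · rfl
        · exact absurd ⟨_, h1⟩ h
    · exact absurd ⟨_, h2⟩ h
    · exact absurd ⟨_, h1⟩ h
    · exact absurd ⟨_, h1⟩ h

theorem G'_pre {s : Bool} {α ρ : List Bool} (h : G' α ((!s) :: s :: ρ)) :
    G' (s :: α) ((!s) :: s :: ρ) := by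
  have key : ∀ n, (!s) :: s :: ρ = b n → Fam n α → G' (s :: α) ((!s) :: s :: ρ) := by
    rintro n h1 ⟨k, rfl⟩
    have hs : s = t n := by
      rcases n with _ | n
      · simp [b] at h1
      · simp only [b, cons.injEq] at h1
        simp [t, ← h1.1]
    exact ⟨n, Or.inl ⟨⟨k + 1, by rw [replicate_succ, hs, cons_append]⟩, h1⟩⟩
  obtain ⟨n, ⟨h1, h2⟩ | ⟨rfl, k, h2⟩⟩ := h
  · exact key n h2 h1
  · rcases k with _ | _ | k
    · exact key n h2 ⟨1, rfl⟩
    · exact key (n + 1) h2 ⟨0, rfl⟩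
    · simp only [replicate_succ, cons_append, cons.injEq] at h2
      obtain ⟨h3, h4, -⟩ := h2
      rw [← h4] at h3
      simp at h3

theorem G'_app {s : Bool} {α ρ : List Bool} (h : G' (s :: (!s) :: α) ρ) :
    G' (s :: (!s) :: α) (s :: ρ) := by
  have key : ∀ n, s :: (!s) :: α = b (n + 1) → Fam n ρ → G' (s :: (!s) :: α) (s :: ρ) := by
    rintro n h1 ⟨k, rfl⟩
    have hs : s = t n := (cons.inj h1).1
    exact ⟨n, Or.inr ⟨h1, k + 1, by rw [replicate_succ, hs, cons_append]⟩⟩
  obtain ⟨n, ⟨⟨k, h1⟩, rfl⟩ | ⟨h1, h2⟩⟩ := h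
  · rcases k with _ | _ | k
    · rcases n with _ | n
      · simp [b] at h1
      · exact key n h1 ⟨1, rfl⟩
    · exact key n h1 ⟨0, rfl⟩
    · simp only [replicate_succ, cons_append, cons.injEq] at h1
      obtain ⟨h3, h4, -⟩ := h1
      rw [← h3] at h4
      simp at h4
  · exact key n h1 h2

def N' (α ρ : List Bool) : Prop :=
  ∃ s k, (α = replicate k s ∧ ρ = [!s, s]) ∨ (α = [s, !s] ∧ ρ = replicate k s)

theorem not_rep {s s' : Bool} {k : ℕ} {l : List Bool} : s :: (!s) :: l ≠ replicate k s' := by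
  intro h
  have h1 : s = s' := eq_of_mem_replicate (n := k) (by rw [← h]; simp)
  have h2 : (!s) = s' := eq_of_mem_replicate (n := k) (by rw [← h]; simp)
  rw [← h1] at h2
  simp at h2

theorem not_rep' {s s' : Bool} {k : ℕ} {l : List Bool} : (!s) :: s :: l ≠ replicate k s' := by
  have := not_rep (s := !s) (s' := s') (k := k) (l := l)
  rwa [Bool.not_not] at this

theorem N'_row (ρ : List Bool) : Hard fun α => N' α ρ := by
  by_cases h : ∃ s, ρ = [!s, s]
  · obtain ⟨s, rfl⟩ := h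
    have : (fun α => N' α [!s, s]) = fun α => ∃ k, α = replicate k s ++ [] := by
      funext α
      apply propext
      constructor
      · rintro ⟨s', k, ⟨rfl, h⟩ | ⟨-, h⟩⟩
        · obtain rfl : s = s' := by simpa using h
          exact ⟨k, by simp⟩
        · exact absurd h not_rep'
      · rintro ⟨k, rfl⟩
        exact ⟨s, k, Or.inl ⟨by simp, rfl⟩⟩
    rw [this]
    exact hard_fam _ _
  · apply hard_of_length
    rintro x y ⟨s, k, ⟨-, h1⟩ | ⟨rfl, -⟩⟩ ⟨s', k', ⟨-, h2⟩ | ⟨rfl, -⟩⟩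
    · exact absurd ⟨_, h1⟩ h
    · exact absurd ⟨_, h1⟩ h
    · exact absurd ⟨_, h2⟩ h
    · rfl

theorem N'_col (α : List Bool) : Hard fun ρ => N' α ρ := by
  by_cases h : ∃ s, α = [s, !s]
  · obtain ⟨s, rfl⟩ := h
    have : (fun ρ => N' [s, !s] ρ) = fun ρ => ∃ k, ρ = replicate k s ++ [] := by
      funext ρ
      apply propext
      constructor
      · rintro ⟨s', k, ⟨h, -⟩ | ⟨h, rfl⟩⟩
        · exact absurd h not_rep
        · obtain rfl : s = s' := by simpa using h
          exact ⟨k, by simp⟩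
      · rintro ⟨k, rfl⟩
        exact ⟨s, k, Or.inr ⟨rfl, by simp⟩⟩
    rw [this]
    exact hard_fam _ _
  · apply hard_of_length
    rintro x y ⟨s, k, ⟨-, rfl⟩ | ⟨h1, -⟩⟩ ⟨s', k', ⟨-, rfl⟩ | ⟨h2, -⟩⟩
    · rfl
    · exact absurd ⟨_, h2⟩ h
    · exact absurd ⟨_, h1⟩ h
    · exact absurd ⟨_, h1⟩ h

theorem N'_pre {s : Bool} {α ρ : List Bool} (h : N' α ((!s) :: s :: ρ)) :
    N' (s :: α) ((!s) :: s :: ρ) := by
  obtain ⟨s', k, ⟨rfl, h⟩ | ⟨-, h⟩⟩ := h
  · obtain rfl : s = s' := (cons.inj (cons.inj h).2).1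
    exact ⟨s, k + 1, Or.inl ⟨rfl, h⟩⟩
  · exact absurd h not_rep'

theorem N'_app {s : Bool} {α ρ : List Bool} (h : N' (s :: (!s) :: α) ρ) :
    N' (s :: (!s) :: α) (s :: ρ) := by
  obtain ⟨s', k, ⟨h, -⟩ | ⟨h, rfl⟩⟩ := h
  · exact absurd h not_rep
  · obtain rfl : s = s' := (cons.inj h).1
    exact ⟨s, k + 1, Or.inr ⟨h, rfl⟩⟩

theorem rep_of_append {s : Bool} {k : ℕ} {v γ : List Bool} (h : v ++ γ = replicate k s) :
    v = replicate v.length s ∧ γ = replicate γ.length s :=
  ⟨eq_replicate_iff.2 ⟨rfl, fun _ hx => eq_of_mem_replicate (h ▸ mem_append_left _ hx)⟩,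
    eq_replicate_iff.2 ⟨rfl, fun _ hx => eq_of_mem_replicate (h ▸ mem_append_right _ hx)⟩⟩

theorem cmpL {v γ ρ : List Bool} (h1 : N' v ρ) (h2 : N' (v ++ γ) ρ) :
    γ = [] ∨ ∃ s i j, ρ = [!s, s] ∧ v = replicate i s ∧ γ = replicate j s := by
  obtain ⟨s, k, ⟨h3, h4⟩ | ⟨h3, h4⟩⟩ := h2
  · exact Or.inr ⟨s, _, _, h4, rep_of_append h3⟩
  · obtain ⟨s', k', ⟨-, h6⟩ | ⟨rfl, -⟩⟩ := h1
    · exact absurd (h6.symm.trans h4) not_rep'
    · left
      have := congrArg length h3
      simpa using this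

theorem cmpR {α ρ δ : List Bool} (h1 : N' α ρ) (h2 : N' α (ρ ++ δ)) :
    δ = [] ∨ ∃ s i j, α = [s, !s] ∧ ρ = replicate i s ∧ δ = replicate j s := by
  obtain ⟨s, k, ⟨h3, h4⟩ | ⟨h3, h4⟩⟩ := h2
  · obtain ⟨s', k', ⟨-, rfl⟩ | ⟨h6, -⟩⟩ := h1
    · left
      have := congrArg length h4
      simpa using this
    · exact absurd (h6.symm.trans h3) not_rep
  · exact Or.inr ⟨s, _, _, h3, rep_of_append h4⟩

def P' (m : Bool) : List Bool → List Bool → Prop := cond m G' N'

theorem P'_row (m : Bool) (ρ : List Bool) : Hard fun α => P' m α ρ := by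
  cases m
  exacts [N'_row ρ, G'_row ρ]

theorem P'_col (m : Bool) (α : List Bool) : Hard fun ρ => P' m α ρ := by
  cases m
  exacts [N'_col α, G'_col α]

theorem P'_pre {m s : Bool} {α ρ : List Bool} (j : ℕ) (h : P' m α ((!s) :: s :: ρ)) :
    P' m (replicate j s ++ α) ((!s) :: s :: ρ) := by
  induction j with
  | zero => exact h
  | succ j ih =>
    cases m
    exacts [N'_pre ih, G'_pre ih]

theorem P'_app {m s : Bool} {α ρ : List Bool} (j : ℕ) (h : P' m (s :: (!s) :: α) ρ) :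
    P' m (s :: (!s) :: α) (replicate j s ++ ρ) := by
  induction j with
  | zero => exact h
  | succ j ih =>
    cases m
    exacts [N'_app ih, G'_app ih]

def lt (s : Bool) : Fin 5 := cond s 0 1
def rt (s : Bool) : Fin 5 := cond s 2 3
def mk (m : Bool) : List (Fin 5) := cond m [4] []

def enc (m : Bool) (α β : List Bool) : List (Fin 5) := α.map lt ++ (mk m ++ β.map rt)

theorem split {m : Bool} {α β : List Bool} {A B : List (Fin 5)} (h : A ++ B = enc m α β) :
    (∃ a a', α = a ++ a' ∧ A = a.map lt ∧ B = enc m a' β) ∨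
    (∃ c c', β = c ++ c' ∧ A = enc m α c ∧ B = c'.map rt) := by
  rcases append_eq_append_iff.1 h with ⟨a', h1, h2⟩ | ⟨c', h1, h2⟩
  · obtain ⟨l1, l2, rfl, rfl, rfl⟩ := map_eq_append_iff.1 h1
    exact Or.inl ⟨l1, l2, rfl, rfl, h2⟩
  · cases m
    · obtain ⟨l1, l2, rfl, rfl, rfl⟩ := map_eq_append_iff.1 h2
      exact Or.inr ⟨l1, l2, rfl, h1, rfl⟩
    · rcases c' with _ | ⟨x, c'⟩
      · exact Or.inl ⟨α, [], by simp, by simpa using h1, h2.symm⟩
      · obtain ⟨rfl, h3⟩ := cons.inj h2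
        obtain ⟨l1, l2, rfl, rfl, rfl⟩ := map_eq_append_iff.1 h3
        exact Or.inr ⟨l1, l2, rfl, h1, rfl⟩

def S (w : List (Fin 5)) : Prop := ∀ m α β, w = enc m α β → P' m α β.reverse

theorem hard_S : Hard S := by
  intro v γ δ ν hx hy hz m α β h
  rcases split h with ⟨a, a', rfl, h1, rfl⟩ | ⟨c, c', rfl, h1, rfl⟩
  · obtain ⟨l, d, rfl, h2, rfl⟩ := map_eq_append_iff.1 h1.symm
    obtain ⟨l1, g, rfl, rfl, rfl⟩ := map_eq_append_iff.1 h2
    exact P'_row m β.reverse l1 g d a' (hx m _ β (by simp [enc])) (hy m _ β (by simp [enc]))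
      (hz m _ β (by simp [enc]))
  rcases split h1 with ⟨a, a', rfl, h2, rfl⟩ | ⟨d, d', rfl, h2, rfl⟩
  · obtain ⟨l1, g, rfl, rfl, rfl⟩ := map_eq_append_iff.1 h2.symm
    have k1 := hx false l1 c' (by simp [enc, mk])
    have k2 := hy false (l1 ++ g) c' (by simp [enc, mk])
    have k3 := hz m (l1 ++ a') (c ++ c') (by simp [enc])
    rcases cmpL k1 k2 with rfl | ⟨s, i, j, e, rfl, rfl⟩
    · simpa using k3
    · rw [reverse_append, e] at k3 ⊢
      have := P'_pre j k3
      rwa [← append_assoc, ← replicate_add, add_comm, replicate_add] at this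
  rcases split h2 with ⟨a, a', rfl, rfl, rfl⟩ | ⟨e, e', rfl, rfl, rfl⟩
  · have k1 := hx false a c' (by simp [enc, mk])
    have k2 := hz false a (d' ++ c') (by simp [enc, mk])
    have k3 := hy m (a ++ a') (d ++ c') (by simp [enc])
    rw [reverse_append] at k2 k3
    rw [reverse_append, reverse_append]
    rcases cmpR k1 k2 with e | ⟨s, i, j, rfl, e1, e2⟩
    · rw [e]
      simpa using k3
    · rw [e1] at k3
      rw [e1, e2]
      have := P'_app j k3
      rwa [← append_assoc, ← replicate_add, add_comm, replicate_add, append_assoc] at this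
  · exact hard_reverse (P'_col m α) e e' d' c' (hx m α _ (by simp [enc])) (hy m α _ (by simp [enc]))
      (hz m α _ (by simp [enc]))

theorem enc_inj {m m' : Bool} {α β α' β' : List Bool} (h : enc m α β = enc m' α' β') :
    m = m' ∧ α = α' ∧ β = β' := by
  have f1 : ∀ m α β, (enc m α β).filterMap
      (fun x => if x = 0 then some true else if x = 1 then some false else none) = α := by
    intro m α β
    have e1 : (fun x : Fin 5 => if x = 0 then some true else if x = 1 then some false else none) ∘ lt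
        = some := by funext s; cases s <;> rfl
    have e2 : (fun x : Fin 5 => if x = 0 then some true else if x = 1 then some false else none) ∘ rt
        = fun _ => none := by funext s; cases s <;> rfl
    simp only [enc, filterMap_append, filterMap_map, e1, e2]
    cases m <;> simp [mk]
  have f2 : ∀ m α β, (enc m α β).filterMap
      (fun x => if x = 2 then some true else if x = 3 then some false else none) = β := by
    intro m α β
    have e1 : (fun x : Fin 5 => if x = 2 then some true else if x = 3 then some false else none) ∘ lt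
        = fun _ => none := by funext s; cases s <;> rfl
    have e2 : (fun x : Fin 5 => if x = 2 then some true else if x = 3 then some false else none) ∘ rt
        = some := by funext s; cases s <;> rfl
    simp only [enc, filterMap_append, filterMap_map, e1, e2]
    cases m <;> simp [mk]
  have h1 : α = α' := by rw [← f1 m α β, h, f1]
  have h2 : β = β' := by rw [← f2 m α β, h, f2]
  subst h1 h2
  refine ⟨?_, rfl, rfl⟩
  have := congrArg length h
  cases m <;> cases m' <;> simp [enc, mk] at this ⊢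

theorem S_enc {m : Bool} {α β : List Bool} (h : P' m α β.reverse) : S (enc m α β) := by
  intro m' α' β' e
  obtain ⟨rfl, rfl, rfl⟩ := enc_inj e
  exact h

def F : Finset (List (Fin 5)) :=
  {[2, 3], [0, 2, 3], [3, 2], [1, 3, 2], [0, 1], [0, 1, 2], [1, 0], [1, 0, 3], [1, 0, 4, 2, 3]}

theorem F_S : ∀ w ∈ F, S w := by
  intro w hw
  simp only [F, Finset.mem_insert, Finset.mem_singleton] at hw
  rcases hw with rfl | rfl | rfl | rfl | rfl | rfl | rfl | rfl | rfl
  · exact S_enc (m := false) (α := []) (β := [true, false]) ⟨true, 0, Or.inl ⟨rfl, rfl⟩⟩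
  · exact S_enc (m := false) (α := [true]) (β := [true, false]) ⟨true, 1, Or.inl ⟨rfl, rfl⟩⟩
  · exact S_enc (m := false) (α := []) (β := [false, true]) ⟨false, 0, Or.inl ⟨rfl, rfl⟩⟩
  · exact S_enc (m := false) (α := [false]) (β := [false, true]) ⟨false, 1, Or.inl ⟨rfl, rfl⟩⟩
  · exact S_enc (m := false) (α := [true, false]) (β := []) ⟨true, 0, Or.inr ⟨rfl, rfl⟩⟩
  · exact S_enc (m := false) (α := [true, false]) (β := [true]) ⟨true, 1, Or.inr ⟨rfl, rfl⟩⟩
  · exact S_enc (m := false) (α := [false, true]) (β := []) ⟨false, 0, Or.inr ⟨rfl, rfl⟩⟩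
  · exact S_enc (m := false) (α := [false, true]) (β := [false]) ⟨false, 1, Or.inr ⟨rfl, rfl⟩⟩
  · exact S_enc (m := true) (α := [false, true]) (β := [true, false]) ⟨2, Or.inl ⟨⟨0, rfl⟩, rfl⟩⟩

theorem diag_mem {H : List (Fin 5) → Prop} (hF : ∀ w ∈ F, H w) (hH : Hard H) (n : ℕ) :
    H (enc true (b (n + 2)) (b (n + 2)).reverse) := by
  induction n with
  | zero => exact hF _ (by decide)
  | succ n ih =>
    have a1 : ∀ s, H [rt s, rt (!s)] := fun s => hF _ (by cases s <;> decide)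
    have a2 : ∀ s, H [lt s, rt s, rt (!s)] := fun s => hF _ (by cases s <;> decide)
    have a3 : ∀ s, H [lt s, lt (!s)] := fun s => hF _ (by cases s <;> decide)
    have a4 : ∀ s, H [lt s, lt (!s), rt s] := fun s => hF _ (by cases s <;> decide)
    have h1 := hH [] [lt (t n)] (enc true (b (n + 2)) (b n).reverse) [rt (t n), rt (!t n)]
      (a1 _) (a2 _) (by simpa [enc, b, t] using ih)
    have h2 := hH [lt (t n), lt (!t n)] (enc true (b (n + 1)) (b (n + 2)).reverse) [rt (t n)] []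
      (a3 _) (by simpa [enc, b, t] using h1) (a4 _)
    simpa [enc, b, t] using h2

def HF : Language (Fin 5) :=
  ⋂₀ {H : Set (List (Fin 5)) | (F : Set (List (Fin 5))) ⊆ H ∧ ∀ v γ δ ν : List (Fin 5),
      v ++ ν ∈ H → v ++ γ ++ ν ∈ H → v ++ δ ++ ν ∈ H → v ++ γ ++ δ ++ ν ∈ H}

theorem not_reg : ¬ HF.IsRegular := by
  intro h
  refine Set.infinite_of_injective_forall_mem (f := fun n : ℕ => HF.leftQuotient
    (enc true (b (2 * n + 2)) [])) ?_ (fun n => Set.mem_range_self _) h.finite_range_leftQuotient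
  intro n m hnm
  have e : ∀ i j, enc true (b i) [] ++ (b j).reverse.map rt = enc true (b i) (b j).reverse := by
    intro i j
    simp [enc]
  have h1 : (b (2 * n + 2)).reverse.map rt ∈ HF.leftQuotient (enc true (b (2 * n + 2)) []) := by
    rw [Language.mem_leftQuotient, e]
    rintro H ⟨hF, hH⟩
    exact diag_mem (H := fun w => w ∈ H) hF hH (2 * n)
  simp only at hnm
  rw [hnm, Language.mem_leftQuotient, e] at h1
  have h2 : S _ := h1 {w | S w} ⟨F_S, hard_S⟩
  have h3 := h2 true _ _ rfl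
  rw [reverse_reverse] at h3
  obtain ⟨k, hk⟩ := G'_row_b.1 h3
  rcases lemA hk.symm with ⟨-, h4⟩ | ⟨-, h4⟩ <;> omega

theorem main : ∃ F : Finset (List (Fin 5)), ¬ Language.IsRegular (T := Fin 5)
    (⋂₀ {H : Set (List (Fin 5)) | (F : Set (List (Fin 5))) ⊆ H ∧ ∀ v γ δ ν : List (Fin 5),
      v ++ ν ∈ H → v ++ γ ++ ν ∈ H → v ++ δ ++ ν ∈ H → v ++ γ ++ δ ++ ν ∈ H}) :=
  ⟨F, not_reg⟩

end Pool.Agent.P.MP_d49585_lc
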