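import Pool.Agent.P.MP_d49585_lc.Track
import Pool.Agent.P.MP_d49585_lc.Thue

namespace Pool.Agent.P.MP_d49585_lc.U

open List

section buffer

variable {X Y D : Type} (U : X → List D) (n : ℕ) (sy : Y → D) (mq : Y → Option X)

open Classical in
noncomputable def bs0 : Option (List D) → Y → Option (List D)
  | none, _ => none
  | some b, y => match mq y with
    | none => if b.length < n then some (b ++ [sy y]) else none
    | some x => if b ++ [sy y] = U x then some [] else none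

theorem bs0_none (β : List Y) : β.foldl (bs0 U n sy mq) none = none := by
  induction β with
  | nil => rfl
  | cons a β ih => exact ih

theorem bs0_sound : ∀ (β : List Y) (b : List D), β.foldl (bs0 U n sy mq) (some b) = some [] →
    b ++ β.map sy = (β.filterMap mq).flatMap U := by
  intro β
  induction β with
  | nil => intro b h; simpa using h
  | cons y β ih =>
    intro b h
    rw [foldl_cons] at h
    cases hy : mq y with
    | none =>
      simp only [bs0, hy] at h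
      split_ifs at h with h1
      · simpa [hy] using ih _ h
      · simp [bs0_none] at h
    | some x =>
      simp only [bs0, hy] at h
      split_ifs at h with h1
      · have := ih _ h
        simp only [nil_append] at this
        simp [hy, ← h1, this]
      · simp [bs0_none] at h

def ann : List D → X → List (D × Option X)
  | [], _ => []
  | [a], x => [(a, some x)]
  | a :: c :: l, x => (a, none) :: ann (c :: l) x

theorem ann_fst (x : X) : ∀ l : List D, (ann l x).map Prod.fst = l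
  | [] => rfl
  | [_] => rfl
  | a :: c :: l => by simp [ann, ann_fst x (c :: l)]

theorem ann_spec (x : X) : ∀ (l : List D) (a : D) (β : List Y) (b : List D),
    β.map (fun y => (sy y, mq y)) = ann (a :: l) x → b ++ a :: l = U x → (U x).length ≤ n →
    β.foldl (bs0 U n sy mq) (some b) = some [] ∧ β.filterMap mq = [x] ∧
      ∃ b0 y, β = b0 ++ [y] ∧ mq y = some x := by
  intro l
  induction l with
  | nil =>
    intro a β b h1 h2 _
    obtain ⟨y, rfl, e⟩ := map_eq_singleton_iff.1 h1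
    obtain ⟨rfl, e2⟩ := Prod.mk.inj e
    exact ⟨by simp [bs0, e2, h2], by simp [e2], [], y, rfl, e2⟩
  | cons c l ih =>
    intro a β b h1 h2 h3
    obtain ⟨y, β', rfl, e, e3⟩ := map_eq_cons_iff.1 h1
    obtain ⟨rfl, e2⟩ := Prod.mk.inj e
    obtain ⟨k1, k2, b0, y', rfl, k3⟩ := ih c β' (b ++ [sy y]) e3 (by simpa using h2) h3
    have hb : b.length < n := by
      rw [← h2] at h3
      simp only [length_append, length_cons] at h3
      omega
    refine ⟨?_, by rw [filterMap_cons, e2]; exact k2, y :: b0, y', rfl, k3⟩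
    rw [foldl_cons]
    simpa only [bs0, e2, hb, if_true] using k1

end buffer

theorem blocks {J Y D : Type} (U : J × Bool → List D) (n : ℕ) (sy : Y → D)
    (mq : Y → Option (J × Bool)) (hU : ∀ x, U x ≠ [] ∧ (U x).length ≤ n) :
    ∀ (α : List (J × Bool)) (β : List Y),
      β.map (fun y => (sy y, mq y)) = α.reverse.flatMap (fun x => ann (U x) x) →
      Lf mq n α β ∧ β.foldl (bs0 U n sy mq) (some []) = some [] := by
  intro α
  induction α with
  | nil =>
    intro β h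
    obtain rfl : β = [] := by simpa using h
    exact ⟨rfl, rfl⟩
  | cons x α ih =>
    intro β h
    rw [reverse_cons, flatMap_append, flatMap_singleton] at h
    obtain ⟨β0, b, rfl, h1, h2⟩ := map_eq_append_iff.1 h
    obtain ⟨k1, k2⟩ := ih β0 h1
    obtain ⟨a, l, e⟩ := exists_cons_of_ne_nil (hU x).1
    have hl : b.length = (U x).length := by
      rw [← ann_fst x (U x), ← h2]
      simp
    rw [e] at h2
    obtain ⟨k3, k4, k5⟩ := ann_spec U n sy mq x l a b [] h2 e.symm (hU x).2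
    exact ⟨⟨β0, b, rfl, k1, hl ▸ (hU x).2, k4, k5⟩, by rw [foldl_append, k2, k3]⟩

theorem exists_zip {D X : Type} : ∀ β1 β2 : List (D × X), β1.map Prod.fst = β2.map Prod.fst →
    ∃ β : List (D × X × X), β.map (fun y => (y.1, y.2.1)) = β1 ∧ β.map (fun y => (y.1, y.2.2)) = β2
  | [], [], _ => ⟨[], rfl, rfl⟩
  | [], _ :: _, h => by simp at h
  | _ :: _, [], h => by simp at h
  | (a, p) :: β1, (a', q) :: β2, h => by
    obtain ⟨rfl, h2⟩ := cons.inj h
    obtain ⟨β, rfl, rfl⟩ := exists_zip β1 β2 h2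
    exact ⟨(a, p, q) :: β, rfl, rfl⟩

theorem exists_alt {J : Type} (js : List J) :
    ∃ α : List (J × Bool), α.map Prod.fst = js ∧ Alt α := by
  induction js with
  | nil => exact ⟨[], rfl, List.IsChain.nil⟩
  | cons j l ih =>
    obtain ⟨_ | ⟨c, α⟩, rfl, h⟩ := ih
    · exact ⟨[(j, true)], rfl, List.IsChain.singleton _⟩
    · exact ⟨(j, !c.2) :: c :: α, rfl, alt_cons2.2 ⟨by simp, h⟩⟩

theorem Alt.drop {J : Type} {z a : List (J × Bool)} (h : Alt (z ++ a)) : Alt a := by
  induction z with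
  | nil => exact h
  | cons c z ih => exact ih (Alt.tail h)

section post

variable {I Γ : Type}

abbrev Jx (I Γ : Type) : Type := I ⊕ Bool × Option Γ

abbrev Yr (I Γ : Type) : Type := Option Γ × Option (Jx I Γ × Bool) × Option (Jx I Γ × Bool)

abbrev Al (I Γ : Type) : Type := Lt (Jx I Γ × Bool) (Yr I Γ) ⊕ Option Bool

def IsY (x : Jx I Γ × Bool) : Prop := ∃ s, x.1 = .inr (true, s)

def IsE (x : Jx I Γ × Bool) : Prop := ∃ s, x.1 = .inr (false, s)

def Low (x : Jx I Γ × Bool) : Prop := (∃ i, x.1 = .inl i) ∨ x.1 = .inr (false, none)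

theorem IsE.notY {x : Jx I Γ × Bool} (h : IsE x) : ¬ IsY x := by
  rintro ⟨s, e⟩
  obtain ⟨s', e'⟩ := h
  simp [e] at e'

theorem Low.notY {x : Jx I Γ × Bool} (h : Low x) : ¬ IsY x := by
  rintro ⟨s, e⟩
  rcases h with ⟨s', e'⟩ | e' <;> simp [e] at e'

def rel : Option (Al I Γ) → Al I Γ → Prop
  | none, a => ∃ t p, a = .inl (.inl (.inr (t, none), p))
  | some (.inl (.inl x)), a => (∃ c, a = .inl (.inl c) ∧ x.2 ≠ c.2 ∧
      ((IsY x ∧ (IsY c ∨ IsE c)) ∨ (¬ IsY x ∧ Low c))) ∨ (a = .inl (.inr none) ∧ ¬ IsY x)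
  | some (.inl (.inr _)), a => (∃ y, a = .inl (rg y)) ∨ a = .inr none
  | some (.inr none), a => a = .inr (some true)
  | some (.inr (some true)), a => a = .inr (some false)
  | some (.inr (some false)), _ => False

def Ch : Option (Al I Γ) → List (Al I Γ) → Prop
  | p, [] => p = some (.inr (some false))
  | p, a :: w => rel p a ∧ Ch (some a) w

open Classical in
noncomputable def cs : Option (Option (Al I Γ)) → Al I Γ → Option (Option (Al I Γ))
  | none, _ => none
  | some p, a => if rel p a then some (some a) else none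

theorem cs_none (w : List (Al I Γ)) : w.foldl cs none = none := by
  induction w with
  | nil => rfl
  | cons a β ih => exact ih

theorem cs_iff : ∀ (w : List (Al I Γ)) (p : Option (Al I Γ)),
    w.foldl cs (some p) = some (some (.inr (some false))) ↔ Ch p w := by
  intro w
  induction w with
  | nil => intro p; simp [Ch]
  | cons a w ih =>
    intro p
    rw [foldl_cons]
    by_cases h : rel p a
    · simp only [cs, h, if_true, Ch, true_and]
      exact ih _
    · simp [cs, h, Ch, cs_none]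

def Wd (α : List (Jx I Γ × Bool)) (β : List (Yr I Γ)) : List (Al I Γ) :=
  map .inl (enc true α β) ++ sf [true, false]

theorem ch_right : ∀ (w : List (Al I Γ)) (o : Option (Yr I Γ)), Ch (some (.inl (.inr o))) w ↔
    ∃ β : List (Yr I Γ), w = map .inl (β.map rg) ++ sf [true, false] := by
  intro w
  induction w with
  | nil => intro o; simp [Ch, sf]
  | cons a w ih =>
    intro o
    constructor
    · rintro ⟨⟨y, rfl⟩ | rfl, h⟩
      · obtain ⟨β, rfl⟩ := (ih (some y)).1 h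
        exact ⟨y :: β, rfl⟩
      · rcases w with _ | ⟨a1, w⟩
        · simp [Ch] at h
        obtain ⟨rfl, h⟩ := h
        rcases w with _ | ⟨a2, w⟩
        · simp [Ch] at h
        obtain ⟨rfl, h⟩ := h
        rcases w with _ | ⟨a3, w⟩
        · exact ⟨[], rfl⟩
        · exact h.1.elim
    · rintro ⟨_ | ⟨y, β⟩, h⟩
      · obtain ⟨rfl, rfl⟩ := cons.inj h
        exact ⟨Or.inr rfl, rfl, rfl, rfl⟩
      · obtain ⟨rfl, rfl⟩ := cons.inj h
        exact ⟨Or.inl ⟨y, rfl⟩, (ih (some y)).2 ⟨β, rfl⟩⟩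

theorem ch_low : ∀ (w : List (Al I Γ)) (x : Jx I Γ × Bool), ¬ IsY x →
    (Ch (some (.inl (.inl x))) w ↔ ∃ a β, w = Wd a β ∧ Alt (x :: a) ∧ ∀ c ∈ a, Low c) := by
  intro w
  induction w with
  | nil => intro x _; simp [Ch, Wd, sf]
  | cons e w ih =>
    intro x hx
    constructor
    · rintro ⟨⟨c, rfl, h1, ⟨h2, -⟩ | ⟨-, h2⟩⟩ | ⟨rfl, -⟩, h⟩
      · exact absurd h2 hx
      · obtain ⟨a, β, rfl, h3, h4⟩ := (ih c h2.notY).1 h
        exact ⟨c :: a, β, rfl, alt_cons2.2 ⟨h1, h3⟩, by simpa [h2] using h4⟩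
      · obtain ⟨β, rfl⟩ := (ch_right w none).1 h
        exact ⟨[], β, rfl, List.IsChain.singleton _, by simp⟩
    · rintro ⟨_ | ⟨c, a⟩, β, h, h3, h4⟩
      · obtain ⟨rfl, rfl⟩ := cons.inj h
        exact ⟨Or.inr ⟨rfl, hx⟩, (ch_right _ none).2 ⟨β, rfl⟩⟩
      · obtain ⟨rfl, rfl⟩ := cons.inj h
        have h2 := h4 c mem_cons_self
        exact ⟨Or.inl ⟨c, rfl, (alt_cons2.1 h3).1, Or.inr ⟨hx, h2⟩⟩,
          (ih c h2.notY).2 ⟨a, β, rfl, h3.tail, fun d hd => h4 d (mem_cons_of_mem _ hd)⟩⟩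

theorem ch_high : ∀ (w : List (Al I Γ)) (x : Jx I Γ × Bool), IsY x →
    (Ch (some (.inl (.inl x))) w ↔ ∃ z i a β, w = Wd (z ++ i :: a) β ∧ Alt (x :: (z ++ i :: a)) ∧
      (∀ c ∈ z, IsY c) ∧ IsE i ∧ ∀ c ∈ a, Low c) := by
  intro w
  induction w with
  | nil => intro x _; simp [Ch, Wd, sf]
  | cons e w ih =>
    intro x hx
    constructor
    · rintro ⟨⟨c, rfl, h1, ⟨-, h2 | h2⟩ | ⟨h2, -⟩⟩ | ⟨-, h2⟩, h⟩
      · obtain ⟨z, i, a, β, rfl, h3, h4, h5⟩ := (ih c h2).1 h
        exact ⟨c :: z, i, a, β, rfl, alt_cons2.2 ⟨h1, h3⟩, by simpa [h2] using h4, h5⟩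
      · obtain ⟨a, β, rfl, h3, h4⟩ := (ch_low w c h2.notY).1 h
        exact ⟨[], c, a, β, rfl, alt_cons2.2 ⟨h1, h3⟩, by simp, h2, h4⟩
      · exact absurd hx h2
      · exact absurd hx h2
    · rintro ⟨_ | ⟨c, z⟩, i, a, β, h, h3, h4, h5, h6⟩
      · obtain ⟨rfl, rfl⟩ := cons.inj h
        exact ⟨Or.inl ⟨i, rfl, (alt_cons2.1 h3).1, Or.inl ⟨hx, Or.inr h5⟩⟩,
          (ch_low _ i h5.notY).2 ⟨a, β, rfl, h3.tail, h6⟩⟩
      · obtain ⟨rfl, rfl⟩ := cons.inj h
        have h2 := h4 c mem_cons_self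
        exact ⟨Or.inl ⟨c, rfl, (alt_cons2.1 h3).1, Or.inl ⟨hx, Or.inl h2⟩⟩,
          (ih c h2).2 ⟨z, i, a, β, rfl, h3.tail, fun d hd => h4 d (mem_cons_of_mem _ hd), h5, h6⟩⟩

theorem ch_start (w : List (Al I Γ)) : Ch none w ↔ ∃ z i a β, w = Wd (z ++ i :: a) β ∧
    Alt (z ++ i :: a) ∧ (∀ c ∈ z, IsY c) ∧ IsE i ∧ (∀ c ∈ a, Low c) ∧
    ∃ t p r, z ++ i :: a = (.inr (t, none), p) :: r := by
  constructor
  · rcases w with _ | ⟨e, w⟩
    · simp [Ch]
    rintro ⟨⟨t, p, rfl⟩, h⟩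
    cases t
    · have h2 : IsE ((.inr (false, none), p) : Jx I Γ × Bool) := ⟨_, rfl⟩
      obtain ⟨a, β, rfl, h3, h4⟩ := (ch_low w _ h2.notY).1 h
      exact ⟨[], _, a, β, rfl, h3, by simp, h2, h4, _, _, _, rfl⟩
    · have h2 : IsY ((.inr (true, none), p) : Jx I Γ × Bool) := ⟨_, rfl⟩
      obtain ⟨z, i, a, β, rfl, h3, h4, h5, h6⟩ := (ch_high w _ h2).1 h
      exact ⟨_ :: z, i, a, β, rfl, h3, by simpa [h2] using h4, h5, h6, _, _, _, rfl⟩
  · rintro ⟨_ | ⟨c, z⟩, i, a, β, rfl, h3, h4, h5, h6, t, p, r, e⟩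
    · obtain ⟨rfl, -⟩ := cons.inj e
      exact ⟨⟨t, p, rfl⟩, (ch_low _ _ h5.notY).2 ⟨a, β, rfl, h3, h6⟩⟩
    · obtain ⟨rfl, -⟩ := cons.inj e
      exact ⟨⟨t, p, rfl⟩, (ch_high _ _ (h4 _ mem_cons_self)).2
        ⟨z, i, a, β, rfl, h3, fun d hd => h4 d (mem_cons_of_mem _ hd), h5, h6⟩⟩

end post

end Pool.Agent.P.MP_d49585_lc.U
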