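import Pool.Agent.P.MP_d49585_lc.Gad

namespace Pool.Agent.P.MP_d49585_lc.U

open List

theorem hard_flatMap {A B : Type} (f : A → List B) {H : List B → Prop} (h : Hard H) :
    Hard fun w : List A => H (w.flatMap f) := by
  intro v γ δ ν h1 h2 h3
  simp only [flatMap_append] at *
  exact h _ _ _ _ h1 h2 h3

theorem hard_map {A B : Type} (f : A → B) (s : List B) {H : List B → Prop} (h : Hard H) :
    Hard fun w : List A => H (w.map f ++ s) := by
  intro v γ δ ν h1 h2 h3
  simp only [map_append, append_assoc] at *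
  simpa only [append_assoc] using h (v.map f) (γ.map f) (δ.map f) (ν.map f ++ s) h1
    (by simpa only [append_assoc] using h2) (by simpa only [append_assoc] using h3)

section track

variable {J Y : Type} (tr : J × Bool → Bool) (mk : Y → Option (J × Bool))

/-- erase the transparent left letters, keep the marks of the right letters -/
def psi : Lt (J × Bool) Y → List (Lt (J × Bool) (J × Bool))
  | .inl x => cond (tr x) [] [.inl x]
  | .inr none => [.inr none]
  | .inr (some y) => (mk y).toList.map rg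

theorem psi_enc (m : Bool) (α : List (J × Bool)) (β : List Y) :
    (enc m α β).flatMap (psi tr mk) = enc m (α.filter fun x => !tr x) (β.filterMap mk) := by
  have h1 : (α.map Sum.inl).flatMap (psi tr mk) = (α.filter fun x => !tr x).map Sum.inl := by
    induction α with
    | nil => rfl
    | cons a α ih =>
      rw [map_cons, flatMap_cons, ih]
      cases h : tr a <;> simp [psi, h]
  have h2 : (β.map rg).flatMap (psi tr mk) = (β.filterMap mk).map rg := by
    induction β with
    | nil => rfl
    | cons a β ih =>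
      rw [map_cons, flatMap_cons, ih]
      cases h : mk a <;> simp [psi, rg, h]
  simp only [enc, flatMap_append, h1, h2]
  cases m <;> simp [ce, psi]

def KT (w : List (Lt (J × Bool) Y)) : Prop := S (w.flatMap (psi tr mk))

theorem hard_KT : Hard (KT tr mk) := hard_flatMap _ hard_S

theorem KT_enc {m : Bool} {α : List (J × Bool)} {β : List Y}
    (h : Pm m (α.filter fun x => !tr x) (β.filterMap mk).reverse) : KT tr mk (enc m α β) := by
  unfold KT
  rw [psi_enc]
  exact S_enc h

theorem KT_G {α : List (J × Bool)} {β : List Y} (h : KT tr mk (enc true α β)) :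
    G (α.filter fun x => !tr x) (β.filterMap mk).reverse :=
  h true _ _ (psi_enc tr mk true α β)

/-- a block: at most n letters, the last one marked x, no other mark -/
def Bl (n : ℕ) (x : J × Bool) (b : List Y) : Prop :=
  b.length ≤ n ∧ b.filterMap mk = [x] ∧ ∃ b0 y, b = b0 ++ [y] ∧ mk y = some x

def Lf (n : ℕ) : List (J × Bool) → List Y → Prop
  | [], β => β = []
  | x :: α, β => ∃ β0 b, β = β0 ++ b ∧ Lf n α β0 ∧ Bl mk n x b

variable {tr mk} {n : ℕ} {H : List (Lt (J × Bool) Y) → Prop}

theorem pre_mem (hF : ∀ w, w.length ≤ 2 * n + 3 → KT tr mk w → H w) (hH : Hard H)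
    {i j x : J × Bool} {a α : List (J × Bool)} {β : List Y} (hij : i.2 ≠ j.2)
    (hL : Lf mk n (i :: j :: a) β) (hx : tr x = true ∨ x.2 ≠ i.2) (h : H (enc true α β)) :
    H (enc true (x :: α) β) := by
  obtain ⟨_, b, rfl, ⟨β0, _, rfl, -, -, -, b0, y, rfl, hy⟩, hb1, hb2, -⟩ := hL
  have hm : ((y :: b).filterMap mk).reverse = [i, j] := by simp [hy, hb2]
  have a1 : H (enc false [] (y :: b)) := by
    refine hF _ (by simp [enc, ce]; omega) (KT_enc tr mk ?_)
    rw [hm]
    exact Or.inl ⟨i, j, rfl, hij, by simp⟩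
  have a2 : H (enc false [x] (y :: b)) := by
    refine hF _ (by simp [enc, ce]; omega) (KT_enc tr mk ?_)
    rw [hm]
    refine Or.inl ⟨i, j, rfl, hij, ?_⟩
    rcases hx with hx | hx
    · simp [hx]
    · intro c hc
      rw [mem_singleton.1 (mem_filter.1 hc).1]
      exact hx
  have := hH [] [.inl x] (enc true α (β0 ++ b0)) ((y :: b).map rg) (by simpa [enc, ce] using a1)
    (by simpa [enc, ce] using a2) (by simpa [enc, ce] using h)
  simpa [enc, ce] using this

theorem app_mem (hF : ∀ w, w.length ≤ 2 * n + 3 → KT tr mk w → H w) (hH : Hard H)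
    {i j : J × Bool} {a : List (J × Bool)} {β b : List Y} (hij : i.2 ≠ j.2)
    (hi : tr i = false) (hj : tr j = false) (hb : Bl mk n i b)
    (h : H (enc true (i :: j :: a) β)) : H (enc true (i :: j :: a) (β ++ b)) := by
  obtain ⟨hb1, hb2, -⟩ := hb
  have a1 : H (enc false [i, j] []) := by
    refine hF _ (by simp [enc, ce]) (KT_enc tr mk ?_)
    exact Or.inr ⟨i, j, by simp [hi, hj], hij, by simp⟩
  have a2 : H (enc false [i, j] b) := by
    refine hF _ (by simp [enc, ce]; omega) (KT_enc tr mk ?_)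
    exact Or.inr ⟨i, j, by simp [hi, hj], hij, by simp [hb2]⟩
  have := hH [.inl i, .inl j] (enc true a β) (b.map rg) [] (by simpa [enc, ce] using a1)
    (by simpa [enc, ce] using h) (by simpa [enc, ce] using a2)
  simpa [enc, ce] using this

theorem diag_mem (hF : ∀ w, w.length ≤ 2 * n + 3 → KT tr mk w → H w) (hH : Hard H) :
    ∀ (a : List (J × Bool)) (i j : J × Bool) (β : List Y), Alt (i :: j :: a) →
      (∀ x ∈ i :: j :: a, tr x = false) → Lf mk n (i :: j :: a) β →
      H (enc true (i :: j :: a) β) := by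
  intro a
  induction a with
  | nil =>
    rintro i j β hA ht ⟨_, b, rfl, ⟨_, b', rfl, rfl, hb1', hb2', -⟩, hb1, hb2, -⟩
    refine hF _ (by simp [enc, ce]; omega) (KT_enc tr mk ?_)
    have e : ([i, j].filter fun x => !tr x) = [i, j] := by
      simp [ht i (by simp), ht j (by simp)]
    rw [e]
    exact Or.inr ⟨i, j, [], 1, rfl, hA, by simp [hb2, hb2']⟩
  | cons c a ih =>
    rintro i j β hA ht ⟨β0, b, rfl, hL, hb⟩
    have h1 := ih j c β0 hA.tail (fun x hx => ht x (mem_cons_of_mem _ hx)) hL
    have h2 := pre_mem hF hH (alt_cons2.1 hA.tail).1 hL (Or.inr (alt_cons2.1 hA).1) h1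
    exact app_mem hF hH (alt_cons2.1 hA).1 (ht i (by simp)) (ht j (by simp)) hb h2

theorem free_mem (hF : ∀ w, w.length ≤ 2 * n + 3 → KT tr mk w → H w) (hH : Hard H)
    {i j : J × Bool} {a : List (J × Bool)} {β : List Y} (hA : Alt (i :: j :: a))
    (ht : ∀ x ∈ i :: j :: a, tr x = false) (hL : Lf mk n (i :: j :: a) β) :
    ∀ z : List (J × Bool), (∀ x ∈ z, tr x = true) → H (enc true (z ++ i :: j :: a) β) := by
  intro z
  induction z with
  | nil => exact fun _ => diag_mem hF hH a i j β hA ht hL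
  | cons x z ih =>
    intro hz
    exact pre_mem hF hH (alt_cons2.1 hA).1 hL (Or.inl (hz x mem_cons_self))
      (ih fun c hc => hz c (mem_cons_of_mem _ hc))

end track

section conj

variable {A : Type}

/-- the three new letters -/
def sf (μ : List Bool) : List (A ⊕ Option Bool) := .inr none :: μ.map fun c => .inr (some c)

def KC (K : Bool → List A → Prop) (w : List (A ⊕ Option Bool)) : Prop :=
  ∃ x μ, w = map .inl x ++ sf μ ∧ ∀ c ∈ μ, K c x

theorem sf_inj {μ μ' : List Bool}
    (h : μ.map (fun c => (.inr (some c) : A ⊕ Option Bool)) = μ'.map fun c => .inr (some c)) :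
    μ = μ' := map_injective_iff.2 (fun _ _ e => by simpa using e) h

theorem cut_left {l : List (A ⊕ Option Bool)} {x : List A} {μ μ' : List Bool}
    (h : l ++ sf μ = map .inl x ++ sf μ') : l = map .inl x ∧ μ = μ' := by
  have := (append_cons_inj_of_notMem (by simp) (by simp)).1 h.symm
  exact ⟨this.1.symm, (sf_inj this.2.2).symm⟩

theorem cut_right {l : List (A ⊕ Option Bool)} {x x' : List A} {μ' : List Bool}
    (h : map .inl x ++ .inr none :: l = map .inl x' ++ sf μ') :
    x = x' ∧ l = μ'.map fun c => .inr (some c) := by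
  have := (append_cons_inj_of_notMem (by simp) (by simp)).1 h.symm
  exact ⟨(map_injective_iff.2 Sum.inl_injective this.1).symm, this.2.2.symm⟩

theorem hard_KC {K : Bool → List A → Prop} (hK : ∀ c, Hard (K c)) : Hard (KC K) := by
  rintro v γ δ ν ⟨x, μ, h1, p1⟩ ⟨y, μ2, h2, p2⟩ ⟨z, μ3, h3, p3⟩
  have left : ∀ a', map .inl x = v ++ a' → ν = a' ++ sf μ → KC K (v ++ γ ++ δ ++ ν) := by
    rintro a' e rfl
    obtain ⟨x1, x2, rfl, rfl, rfl⟩ := map_eq_append_iff.1 e
    rw [← append_assoc] at h2 h3
    obtain ⟨e2, rfl⟩ := cut_left h2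
    obtain ⟨e3, rfl⟩ := cut_left h3
    obtain ⟨y1, y2, rfl, e4, e5⟩ := map_eq_append_iff.1 e2.symm
    obtain ⟨y3, y4, rfl, e6, rfl⟩ := map_eq_append_iff.1 e4
    obtain ⟨z1, z2, rfl, e7, e8⟩ := map_eq_append_iff.1 e3.symm
    obtain ⟨z3, z4, rfl, e9, rfl⟩ := map_eq_append_iff.1 e7
    obtain rfl := map_injective_iff.2 Sum.inl_injective e5
    obtain rfl := map_injective_iff.2 Sum.inl_injective e6
    obtain rfl := map_injective_iff.2 Sum.inl_injective e8
    obtain rfl := map_injective_iff.2 Sum.inl_injective e9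
    exact ⟨_, μ, by simp, fun c hc => hK c _ _ _ _ (p1 c hc) (p2 c hc) (p3 c hc)⟩
  rcases append_eq_append_iff.1 h1 with ⟨a', e1, e2⟩ | ⟨c', e1, e2⟩
  · exact left a' e1 e2
  · rcases c' with _ | ⟨r', c'⟩
    · exact left [] (by simpa using e1.symm) (by simpa using e2.symm)
    · obtain ⟨rfl, e3⟩ := cons.inj e2
      subst e1
      obtain ⟨rfl, e4⟩ := cut_right (l := c' ++ γ ++ ν) (by simpa using h2)
      obtain ⟨rfl, e5⟩ := cut_right (l := c' ++ δ ++ ν) (by simpa using h3)
      obtain ⟨m1, m2, rfl, e6, -⟩ := map_eq_append_iff.1 e4.symm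
      obtain ⟨m3, m4, rfl, rfl, rfl⟩ := map_eq_append_iff.1 e6
      obtain ⟨n1, n2, rfl, e7, rfl⟩ := map_eq_append_iff.1 e5.symm
      obtain ⟨n3, n4, rfl, -, rfl⟩ := map_eq_append_iff.1 e7
      refine ⟨x, m3 ++ m4 ++ n4 ++ n2, by simp [sf], fun c hc => ?_⟩
      simp only [mem_append] at hc p2 p3
      rcases hc with ((hc | hc) | hc) | hc
      exacts [p2 c (.inl (.inl hc)), p2 c (.inl (.inr hc)), p3 c (.inl (.inr hc)), p3 c (.inr hc)]

theorem KC_both {K : Bool → List A → Prop} {x : List A} (h : KC K (map .inl x ++ sf [true, false]))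
    (c : Bool) : K c x := by
  obtain ⟨x', μ, e, hp⟩ := h
  obtain ⟨e1, rfl⟩ := cut_left e
  obtain rfl := map_injective_iff.2 Sum.inl_injective e1
  exact hp c (by cases c <;> simp)

theorem conj_mem {K : Bool → List A → Prop} {n : ℕ} {H : List (A ⊕ Option Bool) → Prop}
    (hF : ∀ w, w.length ≤ n + 2 → KC K w → H w) (hH : Hard H) {x : List A}
    (hx : ∀ c (H' : List A → Prop), (∀ w, w.length ≤ n → K c w → H' w) → Hard H' → H' x) :
    H (map .inl x ++ sf [true, false]) := by
  have a0 : ∀ x : List A, H (map .inl x ++ sf []) := by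
    intro x
    induction x with
    | nil => exact hF _ (by simp [sf]) ⟨[], [], rfl, by simp⟩
    | cons a x ih =>
      have := hH [] [.inl a] (map .inl x) (sf []) (hF _ (by simp [sf]) ⟨[], [], rfl, by simp⟩)
        (hF _ (by simp [sf]) ⟨[a], [], rfl, by simp⟩) (by simpa using ih)
      simpa using this
  have a1 : ∀ c, H (map .inl x ++ sf [c]) := fun c =>
    hx c (fun w => H (map .inl w ++ sf [c]))
      (fun w h1 h2 => hF _ (by simp [sf]; omega) ⟨w, [c], rfl, by simpa using h2⟩)
      (hard_map _ _ hH)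
  have := hH (map .inl x ++ sf []) [.inr (some true)] [.inr (some false)] [] (by simpa using a0 x)
    (by simpa [sf] using a1 true) (by simpa [sf] using a1 false)
  simpa [sf] using this

end conj

theorem reg_of_closed {A σ : Type} (f : σ → A → σ) (s0 : σ) (Acc T : Set σ) (hT : T.Finite)
    (h0 : s0 ∈ T) (hf : ∀ s ∈ T, ∀ a, f s a ∈ T) :
    Language.IsRegular (T := A) {w : List A | w.foldl f s0 ∈ Acc} := by
  have := hT.fintype
  let M : DFA A T := ⟨fun s a => ⟨f s a, hf s s.2 a⟩, ⟨s0, h0⟩, {s | s.1 ∈ Acc}⟩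
  have key : ∀ (w : List A) (s : T), (M.evalFrom s w).1 = w.foldl f s := by
    intro w
    induction w with
    | nil => intro s; rfl
    | cons a w ih => intro s; exact ih _
  refine Language.isRegular_iff.2 ⟨T, this, M, ?_⟩
  ext w
  change (M.evalFrom M.start w).1 ∈ Acc ↔ _
  rw [key]
  rfl

end Pool.Agent.P.MP_d49585_lc.U
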