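import Pool.Agent.P.MP_d49585_lc.Post
import Pool.Agent.P.MP_d49585_lc.Code

namespace Pool.Agent.P.MP_d49585_lc.U

open List

section fin

variable {I Γ : Type} (u v : I → List Γ)

def mkc (c : Bool) (y : Yr I Γ) : Option (Jx I Γ × Bool) := cond c y.2.1 y.2.2

def trc (c : Bool) : Jx I Γ × Bool → Bool
  | (.inr (true, _), _) => c
  | _ => false

theorem trc_of_not {c : Bool} {x : Jx I Γ × Bool} (h : ¬ IsY x) : trc c x = false := by
  rcases x with ⟨_ | ⟨_ | _, s⟩, p⟩
  · rfl
  · rfl
  · exact absurd ⟨s, rfl⟩ h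

theorem trc_of_Y {c : Bool} {x : Jx I Γ × Bool} (h : IsY x) : trc c x = c := by
  obtain ⟨j, p⟩ := x
  obtain ⟨s, rfl⟩ := h
  rfl

theorem trc_false (x : Jx I Γ × Bool) : trc false x = false := by
  by_cases h : IsY x
  exacts [trc_of_Y h, trc_of_not h]

/-- the blocks, read from the outer end -/
def Vj (c : Bool) : Jx I Γ → List (Option Γ)
  | .inl i => (cond c (u i) (v i)).map some
  | .inr (_, a) => [cond c none a]

def Ub (c : Bool) (x : Jx I Γ × Bool) : List (Option Γ) := (Vj u v c x.1).reverse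

def KK (c : Bool) : List (Lt (Jx I Γ × Bool) (Yr I Γ)) → Prop := KT (trc c) (mkc c)

def rtl : Al I Γ → Option (Yr I Γ)
  | .inl (.inr o) => o
  | _ => none

noncomputable def bs (n : ℕ) (c : Bool) (s : Option (List (Option Γ))) (a : Al I Γ) :
    Option (List (Option Γ)) :=
  match rtl a with
  | some y => bs0 (Ub u v c) n Prod.fst (mkc c) s y
  | none => s

theorem bs_Wd (n : ℕ) (c : Bool) (s : Option (List (Option Γ))) (α : List (Jx I Γ × Bool))
    (β : List (Yr I Γ)) :
    (Wd α β).foldl (bs u v n c) s = β.foldl (bs0 (Ub u v c) n Prod.fst (mkc c)) s := by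
  have h : (Wd α β).filterMap rtl = β := by
    simp [Wd, enc, ce, sf, filterMap_map, Function.comp_def, rtl, rg]
  conv_rhs => rw [← h, foldl_filterMap]
  congr 1
  funext x y
  unfold bs
  cases rtl y <;> rfl

def ho : Jx I Γ → List Γ
  | .inl _ => []
  | .inr (_, s) => s.toList

def hm : Al I Γ → List Γ
  | .inl (.inl x) => ho x.1
  | _ => []

theorem hm_Wd (α : List (Jx I Γ × Bool)) (β : List (Yr I Γ)) :
    (Wd α β).flatMap hm = α.flatMap fun x => ho x.1 := by
  simp [Wd, enc, ce, sf, flatMap_map, hm, rg]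

def RR (n : ℕ) : Language (Al I Γ) :=
  {w | Ch none w ∧ ∀ c, w.foldl (bs u v n c) (some []) = some []}

theorem RR_reg [Finite I] [Finite Γ] (n : ℕ) : (RR u v n).IsRegular := by
  have h1 := reg_of_closed (cs (I := I) (Γ := Γ)) (some none)
    {some (some (.inr (some false)))} Set.univ Set.finite_univ trivial fun _ _ _ => trivial
  have h2 : ∀ c, Language.IsRegular (T := Al I Γ)
      {w : List (Al I Γ) | w.foldl (bs u v n c) (some []) ∈ ({some []} : Set _)} := by
    intro c
    refine reg_of_closed _ _ _ (insert none (some '' {b | b.length ≤ n}))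
      (((List.finite_length_le _ n).image _).insert _) (Or.inr ⟨[], by simp, rfl⟩) ?_
    intro s hs a
    unfold bs
    cases rtl a with
    | none => exact hs
    | some y =>
      rcases hs with rfl | ⟨b, -, rfl⟩
      · exact Or.inl rfl
      · simp only [bs0]
        cases mkc c y with
        | none =>
          simp only
          split_ifs with h
          · exact Or.inr ⟨_, by simpa using h, rfl⟩
          · exact Or.inl rfl
        | some x =>
          simp only
          split_ifs with h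
          · exact Or.inr ⟨_, by simp, rfl⟩
          · exact Or.inl rfl
  have h3 := h1.inf ((h2 true).inf (h2 false))
  refine (congrArg Language.IsRegular ?_).mp h3
  ext w
  change (_ ∧ _ ∧ _) ↔ (_ ∧ _)
  rw [← cs_iff, Bool.forall_bool, and_comm (a := _ = some [])]
  rfl

def Ec (c : Bool) (x : Jx I Γ × Bool) : List Γ := (Vj u v c x.1).filterMap id

theorem marks_eq {n : ℕ} {c : Bool} {β : List (Yr I Γ)}
    (h : β.foldl (bs0 (Ub u v c) n Prod.fst (mkc c)) (some []) = some []) :
    ((β.map Prod.fst).reverse).filterMap id = (β.filterMap (mkc c)).reverse.flatMap (Ec u v c) := by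
  have := bs0_sound _ _ _ _ β [] h
  rw [nil_append] at this
  rw [this, reverse_flatMap, filterMap_flatMap]
  congr 1
  funext x
  simp [Ub, Ec]

theorem low_eq {a : List (Jx I Γ × Bool)} (h : ∀ x ∈ a, Low x) :
    (∀ c, a.flatMap (Ec u v c) = (a.filterMap fun x => x.1.getLeft?).flatMap (cond c u v)) ∧
      (a.flatMap fun x => ho x.1) = [] := by
  induction a with
  | nil => simp
  | cons x a ih =>
    obtain ⟨h1, h2⟩ := ih fun y hy => h y (mem_cons_of_mem _ hy)
    obtain ⟨j, p⟩ := x
    rcases h _ mem_cons_self with ⟨i, rfl⟩ | rfl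
    · refine ⟨fun c => ?_, by simpa [ho] using h2⟩
      rw [flatMap_cons, h1]
      cases c <;> simp [Ec, Vj, filterMap_map]
    · refine ⟨fun c => ?_, by simpa [ho] using h2⟩
      rw [flatMap_cons, h1]
      cases c <;> simp [Ec, Vj]

theorem high_eq {x : Jx I Γ × Bool} (h : IsY x ∨ IsE x) :
    Ec u v false x = ho x.1 ∧ Ec u v true x = [] := by
  obtain ⟨j, p⟩ := x
  rcases h with ⟨s, rfl⟩ | ⟨s, rfl⟩ <;> cases s <;> simp [Ec, Vj, ho]

theorem sound {n : ℕ} {w : List (Al I Γ)} (hK : KC KK w) (hR : w ∈ RR u v n) :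
    ∃ τ : List I, τ.flatMap u = w.flatMap hm ++ τ.flatMap v := by
  obtain ⟨hc, hb⟩ := hR
  obtain ⟨z, i, a, β, rfl, hA, hz, hi, ha, t, p, r, e⟩ := (ch_start w).1 hc
  have g1 := KT_G _ _ (KC_both hK true)
  have g2 := KT_G _ _ (KC_both hK false)
  have f1 : ((z ++ i :: a).filter fun x => !trc true x) = i :: a := by
    rw [filter_append, filter_eq_nil_iff.2 fun x hx => by simp [trc_of_Y (hz x hx)], nil_append,
      filter_eq_self]
    intro x hx
    rcases mem_cons.1 hx with rfl | hx
    · simp [trc_of_not hi.notY]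
    · simp [trc_of_not (ha x hx).notY]
  have f2 : ((z ++ i :: a).filter fun x => !trc false x) = z ++ i :: a := by
    simp [trc_false]
  rw [f1] at g1
  rw [f2, e] at g2
  obtain ⟨k1, e1⟩ := G_col_alt hA.drop g1
  obtain ⟨k2, e2⟩ := G_col_alt (e ▸ hA) g2
  have m1 := marks_eq u v ((bs_Wd u v n true _ _ β).symm.trans (hb true))
  have m2 := marks_eq u v ((bs_Wd u v n false _ _ β).symm.trans (hb false))
  have z1 : Ec u v true i = [] := (high_eq u v (Or.inr hi)).2
  have z2 : Ec u v false (.inr (t, none), p) = [] := rfl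
  have m3 : (β.filterMap (mkc true)).reverse.flatMap (Ec u v true) = a.flatMap (Ec u v true) := by
    rw [e1]
    simp [flatMap_replicate, z1]
  have m4 : (β.filterMap (mkc false)).reverse.flatMap (Ec u v false) =
      (z ++ i :: a).flatMap (Ec u v false) := by
    rw [e2, e]
    simp [flatMap_replicate, z2]
  obtain ⟨l1, l2⟩ := low_eq u v ha
  have m5 : z.flatMap (Ec u v false) = z.flatMap fun x => ho x.1 :=
    flatMap_congr fun x hx => (high_eq u v (Or.inl (hz x hx))).1
  refine ⟨a.filterMap fun x => x.1.getLeft?, ?_⟩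
  have m6 := (m3.symm.trans m1.symm).trans (m2.trans m4)
  rw [l1, flatMap_append, flatMap_cons, l1, m5, (high_eq u v (Or.inr hi)).1] at m6
  rw [hm_Wd, flatMap_append, flatMap_cons, l2]
  simpa using m6

theorem complete {n : ℕ} (hU : ∀ c x, Ub u v c x ≠ [] ∧ (Ub u v c x).length ≤ n) {y : List Γ}
    {τ : List I} (hτ : τ.flatMap u = y ++ τ.flatMap v) :
    ∃ w, (∀ H : List (Al I Γ) → Prop, (∀ w, w.length ≤ 2 * n + 3 + 2 → KC KK w → H w) → Hard H →
      H w) ∧ w ∈ RR u v n ∧ w.flatMap hm = y := by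
  obtain ⟨s, a0, hs⟩ : ∃ s a0, none :: y.map some = s ++ [a0] :=
    ⟨_, _, (dropLast_append_getLast (cons_ne_nil _ _)).symm⟩
  obtain ⟨α, h1, hA⟩ := exists_alt (J := Jx I Γ) (s.map (fun q => .inr (true, q)) ++
    .inr (false, a0) :: (τ.map .inl ++ [.inr (false, none)]))
  obtain ⟨z, α', rfl, hz, h2⟩ := map_eq_append_iff.1 h1
  obtain ⟨i, a, rfl, hi, ha⟩ := map_eq_cons_iff.1 h2
  have hzY : ∀ x ∈ z, IsY x := by
    intro x hx
    have := mem_map_of_mem (f := Prod.fst) hx
    rw [hz] at this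
    obtain ⟨q, -, e⟩ := mem_map.1 this
    exact ⟨q, e.symm⟩
  have hiE : IsE i := ⟨a0, hi⟩
  have haL : ∀ x ∈ a, Low x := by
    intro x hx
    have := mem_map_of_mem (f := Prod.fst) hx
    rw [ha] at this
    rcases mem_append.1 this with h | h
    · obtain ⟨q, -, e⟩ := mem_map.1 h
      exact Or.inl ⟨q, e.symm⟩
    · exact Or.inr (mem_singleton.1 h)
  have key : ∀ (c : Bool) (l : List (Jx I Γ × Bool)),
      (l.reverse.flatMap fun x => ann (Ub u v c x) x).map Prod.fst =
        ((l.map Prod.fst).flatMap (Vj u v c)).reverse := by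
    intro c l
    simp [map_flatMap, ann_fst, reverse_flatMap, flatMap_map, Ub, Function.comp_def]
  have e1 : ((i :: a).map Prod.fst).flatMap (Vj u v true) =
      none :: (τ.flatMap u).map some ++ [none] := by
    rw [h2]
    simp [Vj, flatMap_map, map_flatMap]
  have e2 : ((z ++ i :: a).map Prod.fst).flatMap (Vj u v false) =
      (s ++ [a0]) ++ (τ.flatMap v).map some ++ [none] := by
    rw [h1]
    simp [Vj, flatMap_map, map_flatMap]
  obtain ⟨β, b1, b2⟩ := exists_zip _ _ ((key true (i :: a)).trans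
    (Eq.trans (by rw [e1, e2, ← hs, hτ]; simp) (key false (z ++ i :: a)).symm))
  obtain ⟨L1, q1⟩ := blocks (Ub u v true) n Prod.fst (mkc true) (hU true) _ β b1
  obtain ⟨L2, q2⟩ := blocks (Ub u v false) n Prod.fst (mkc false) (hU false) _ β b2
  obtain ⟨j, a', rfl⟩ : ∃ j a', a = j :: a' := exists_cons_of_ne_nil (by
    rintro rfl
    simp at ha)
  refine ⟨Wd (z ++ i :: j :: a') β, fun H hF hH => conj_mem hF hH ?_, ⟨?_, ?_⟩, ?_⟩
  · intro c H' hF' hH'
    cases c
    · rcases z with _ | ⟨x, _ | ⟨x', z⟩⟩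
      · exact diag_mem hF' hH' _ _ _ β hA (fun x _ => trc_false x) L2
      · exact diag_mem hF' hH' _ _ _ β hA (fun x _ => trc_false x) L2
      · exact diag_mem hF' hH' _ _ _ β hA (fun x _ => trc_false x) L2
    · refine free_mem hF' hH' hA.drop (fun x hx => ?_) L1 z fun x hx => trc_of_Y (hzY x hx)
      rcases mem_cons.1 hx with rfl | hx
      · exact trc_of_not hiE.notY
      · exact trc_of_not (haL x hx).notY
  · refine (ch_start _).2 ⟨z, i, _, β, rfl, hA, hzY, hiE, haL, ?_⟩
    rcases z with _ | ⟨x, z⟩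
    · obtain rfl : s = [] := by simpa using hz.symm
      obtain ⟨i1, p⟩ := i
      obtain rfl : none = a0 := (cons.inj hs).1
      obtain rfl : i1 = _ := hi
      exact ⟨false, p, _, rfl⟩
    · obtain ⟨q, s', rfl, e, -⟩ := map_eq_cons_iff.1 hz.symm
      obtain ⟨x1, p⟩ := x
      obtain rfl : none = q := (cons.inj hs).1
      obtain rfl : _ = x1 := e
      exact ⟨true, p, _, rfl⟩
  · intro c
    rw [bs_Wd]
    cases c
    exacts [q2, q1]
  · rw [hm_Wd, ← flatMap_map Prod.fst ho, h1]
    have := congrArg (flatMap Option.toList) hs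
    simp only [flatMap_cons, flatMap_map, flatMap_append, Option.toList_none, Option.toList_some,
      nil_append, flatMap_nil, append_nil, flatMap_singleton'] at this
    simp [flatMap_map, ho, this]

end fin

theorem main : ∃ (F : Finset (List (Fin 2))) (k : ℕ) (R : Language (Fin k))
    (g : Fin k → List (Fin 2)) (h : Fin k → List (Fin k)),
    R.IsRegular ∧ ¬ ComputablePred fun x : List (Fin k) => ∃ w ∈ R,
      w.flatMap g ∈ ⋂₀ {H : Set (List (Fin 2)) | (F : Set (List (Fin 2))) ⊆ H ∧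
        ∀ v γ δ ν : List (Fin 2),
          v ++ ν ∈ H → v ++ γ ++ ν ∈ H → v ++ δ ++ ν ∈ H → v ++ γ ++ δ ++ ν ∈ H} ∧
      w.flatMap h = x := by
  classical
  obtain ⟨I, Γ, _, _, u, v, y, hu, hv, -, hy, hre⟩ := T.mpcp_undec
  obtain ⟨n, hn⟩ := (Set.finite_range fun p : Bool × (Jx I Γ × Bool) =>
    (Ub u v p.1 p.2).length).bddAbove
  have hU : ∀ c x, Ub u v c x ≠ [] ∧ (Ub u v c x).length ≤ n := by
    refine fun c x => ⟨?_, hn ⟨(c, x), rfl⟩⟩
    rcases x with ⟨i | ⟨t, s⟩, p⟩ <;> cases c <;> simp [Ub, Vj, hu, hv]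
  obtain ⟨k, ⟨e⟩⟩ := Finite.exists_equiv_fin (Al I Γ)
  let φ : Γ → Fin k := fun a => e (.inl (rg (some a, none, none)))
  have hφ : Function.Injective φ := fun a b h => by simpa [φ, rg] using h
  have hfin0 : {w : List (Fin k) | w.length ≤ 2 * n + 3 + 2 ∧ KC KK (w.map e.symm)}.Finite :=
    (List.finite_length_le _ _).subset fun w hw => hw.1
  have hfin := hfin0.image fun w => w.flatMap (unit k)
  obtain ⟨σ, _, M, hM⟩ := RR_reg u v n
  refine ⟨hfin.toFinset, k, {w | w.map e.symm ∈ RR u v n}, unit k, fun a => (hm (e.symm a)).map φ,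
    ⟨σ, inferInstance, M.comap e.symm, by rw [DFA.accepts_comap, hM]; rfl⟩, fun hc => hre ?_⟩
  refine REPred.of_eq (p := fun m => ¬ _) ((hc.not.to_re).comp (hy (Fin k) φ).to_comp)
    fun m => not_congr ?_
  have hout : ∀ w : List (Fin k), (w.flatMap fun a => (hm (e.symm a)).map φ) =
      ((w.map e.symm).flatMap hm).map φ := fun w => by simp [map_flatMap, flatMap_map]
  constructor
  · rintro ⟨w, h2, h1, h3⟩
    have h4 : KC KK (w.map e.symm) := by
      have h5 := hard_map e.symm [] (hard_KC (K := KK) fun c => hard_KT _ _)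
      simp only [append_nil] at h5
      obtain ⟨w', e1, h6⟩ := h1 {x | ∃ w : List (Fin k), x = w.flatMap (unit k) ∧
        KC KK (w.map e.symm)} ⟨fun x hx => by
          obtain ⟨w, hw, rfl⟩ := hfin.mem_toFinset.1 hx
          exact ⟨w, rfl, hw.2⟩, hard_unit h5⟩
      rwa [unit_flat_inj e1]
    rw [hout] at h3
    rw [← map_injective_iff.2 hφ h3]
    exact sound u v h4 h2
  · rintro ⟨τ, hτ⟩
    obtain ⟨w, h1, h2, h3⟩ := complete u v hU hτ
    have hw : (w.map e).map e.symm = w := by simp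
    refine ⟨w.map e, ?_, ?_, by rw [hout, hw, h3]⟩
    · change (w.map e).map e.symm ∈ RR u v n
      rwa [hw]
    · rintro H ⟨hF, hH⟩
      refine h1 (fun w => (w.map e).flatMap (unit k) ∈ H)
        (fun w a b => hF (hfin.mem_toFinset.2 ⟨_, ?_, rfl⟩)) ?_
      · exact ⟨by simpa using a, by simpa using b⟩
      · have h5 := hard_map e [] (hard_flatMap (unit k) (H := fun w => w ∈ H) hH)
        simp only [append_nil] at h5
        exact h5

end Pool.Agent.P.MP_d49585_lc.U
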